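import Pool.Agent.K6.H54.RZ.Cor

/-!
# Polynomials that need not be homogeneous
-/

set_option autoImplicit false

namespace Pool.Agent.K6.H54.RZ

open Finset Pool.Agent.N449.SQ Pool.Agent.K6.H50.SMP

/-- the form of degree `k` of a polynomial of degree at most `k` -/
noncomputable def hom {m : ℕ} (P : MvPolynomial (Fin m) ℤ) (k : ℕ) :
    MvPolynomial (Fin (m + 1)) ℤ :=
  ∑ μ ∈ P.support, MvPolynomial.monomial (Finsupp.cons (k - ∑ i, μ i) μ) (P.coeff μ)

theorem deg_le {m k : ℕ} {P : MvPolynomial (Fin m) ℤ} (hP : P.totalDegree ≤ k)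
    {μ : Fin m →₀ ℕ} (hμ : μ ∈ P.support) : ∑ i, μ i ≤ k := by
  have h := MvPolynomial.le_totalDegree hμ
  rw [Finsupp.sum_fintype _ _ (by simp)] at h
  exact h.trans hP

theorem hom_hom {m k : ℕ} (P : MvPolynomial (Fin m) ℤ) (hP : P.totalDegree ≤ k) :
    (hom P k).IsHomogeneous k := by
  refine MvPolynomial.IsHomogeneous.sum _ _ _ fun μ hμ => ?_
  apply MvPolynomial.isHomogeneous_monomial
  have h := deg_le hP hμ
  rw [Finsupp.degree_eq_sum, Fin.sum_univ_succ]
  simp only [Finsupp.cons_zero, Finsupp.cons_succ]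
  omega

theorem hom_len {m k : ℕ} (P : MvPolynomial (Fin m) ℤ) : len (hom P k) ≤ len P :=
  (len_sum_le _ _).trans (Finset.sum_le_sum fun _ _ => len_monomial _ _)

theorem hom_eval₂ {m k : ℕ} {R' : Type*} [CommRing R'] (f : ℤ →+* R')
    (P : MvPolynomial (Fin m) ℤ) (z : Fin (m + 1) → R') :
    MvPolynomial.eval₂ f z (hom P k) =
      ∑ μ ∈ P.support, f (P.coeff μ) * (z 0 ^ (k - ∑ i, μ i) * ∏ i, z i.succ ^ μ i) := by
  rw [hom, MvPolynomial.eval₂_sum]
  refine Finset.sum_congr rfl fun μ _ => ?_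
  rw [MvPolynomial.eval₂_monomial, Finsupp.prod_fintype _ _ (by simp), Fin.prod_univ_succ]
  simp only [Finsupp.cons_zero, Finsupp.cons_succ]

theorem hom_one {m k : ℕ} {R' : Type*} [CommRing R'] (f : ℤ →+* R')
    (P : MvPolynomial (Fin m) ℤ) (z : Fin (m + 1) → R') (hz : z 0 = 1) :
    MvPolynomial.eval₂ f z (hom P k) = MvPolynomial.eval₂ f (fun i => z i.succ) P := by
  rw [hom_eval₂, MvPolynomial.eval₂_eq']
  refine Finset.sum_congr rfl fun μ _ => ?_
  rw [hz, one_pow, one_mul]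

theorem hom_div {m k : ℕ} {R' : Type*} [Field R'] (f : ℤ →+* R')
    (P : MvPolynomial (Fin m) ℤ) (hP : P.totalDegree ≤ k) (z : Fin (m + 1) → R')
    (hz : z 0 ≠ 0) : MvPolynomial.eval₂ f z (hom P k) =
      z 0 ^ k * MvPolynomial.eval₂ f (fun i => z i.succ / z 0) P := by
  rw [hom_eval₂, MvPolynomial.eval₂_eq', Finset.mul_sum]
  refine Finset.sum_congr rfl fun μ hμ => ?_
  have h1 : ∏ i, (z i.succ / z 0) ^ μ i = (∏ i, z i.succ ^ μ i) / z 0 ^ (∑ i, μ i) := by
    rw [← Finset.prod_pow_eq_pow_sum, ← Finset.prod_div_distrib]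
    exact Finset.prod_congr rfl fun i _ => div_pow _ _ _
  have h2 : z 0 ^ k = z 0 ^ (k - ∑ i, μ i) * z 0 ^ (∑ i, μ i) := by
    rw [← pow_add, Nat.sub_add_cancel (deg_le hP hμ)]
  rw [h1, h2]
  field_simp

/-- The zeros of the form. -/
theorem hom_zeros {m k : ℕ} {R' : Type*} [Field R'] (f : ℤ →+* R')
    (P : MvPolynomial (Fin m) ℤ) (hP : P.totalDegree ≤ k) {J : Type*}
    (L : J → MvPolynomial (Fin m) ℤ)
    (hz : ∀ z : Fin m → R', MvPolynomial.eval₂ f z P = 0 →
      ∃ j, MvPolynomial.eval₂ f z (L j) = 0) (z : Fin (m + 1) → R')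
    (h : MvPolynomial.eval₂ f z (hom P k) = 0) :
    ∃ o : Option J, MvPolynomial.eval₂ f z
      (o.elim (MvPolynomial.X 0) fun j => hom (L j) (L j).totalDegree) = 0 := by
  by_cases hz0 : z 0 = 0
  · refine ⟨none, ?_⟩
    simp [hz0]
  · rw [hom_div f P hP z hz0] at h
    obtain ⟨j, hj⟩ := hz _ ((mul_eq_zero.1 h).resolve_left (pow_ne_zero _ hz0))
    refine ⟨some j, ?_⟩
    rw [Option.elim_some, hom_div f (L j) le_rfl z hz0, hj, mul_zero]

section

variable {n : ℕ} (hn : n.Prime) (hn2 : n ≠ 2) {x y : ℤ} (h : (x : ℝ) + y * √2 = (1 + √2) ^ n)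
  {m k : ℕ} (hk : 1 ≤ k) (S : Finset ℕ) (u u' : Fin m → ℕ → ℤ)
  (hu : ∀ j, ∀ i ∈ S, |u j i| ≤ n ∧ |u' j i| ≤ n) (P : MvPolynomial (Fin m) ℤ)
  (hP : P.totalDegree ≤ k) (hlen : len P ≤ (n : ℤ) ^ k) {J : Type*}
  (L : J → MvPolynomial (Fin m) ℤ)
  {δ : ℝ} (hδ : 0 < δ) (hδ1 : δ ≤ 1) {d : ℕ} (hdδ : (1 + √2) ^ (δ * n) ≤ (d : ℝ))
  (hd : (d : ℤ) ∣ MvPolynomial.eval (fun j => val S (u j) (u' j)) P)

/-- the coefficients of `1` and the numbers -/
def ext (S : Finset ℕ) (u : Fin m → ℕ → ℤ) (c : ℤ) : Fin (m + 1) → ℕ → ℤ :=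
  Fin.cons (fun i => if i = 0 then c else 0) fun j i => if i ∈ S then u j i else 0

theorem ext_val (S : Finset ℕ) (u u' : Fin m → ℕ → ℤ) :
    (fun j => val (insert 0 S) (ext S u 0 j) (ext S u' 1 j)) =
      Fin.cons 1 fun j => val S (u j) (u' j) := by
  funext j
  refine Fin.cases ?_ (fun j => ?_) j
  · have h1 : ext S u 0 0 = fun _ => 0 := by
      funext i
      simp [ext]
    rw [h1]
    exact val_one S
  · exact val_insert S (u j) (u' j)

include hu in
theorem ext_le (hn3 : 3 ≤ n) : ∀ j, ∀ i ∈ insert 0 S,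
    |ext S u 0 j i| ≤ n ∧ |ext S u' 1 j i| ≤ n := by
  intro j i _
  refine Fin.cases ?_ (fun j => ?_) j
  · simp only [ext, Fin.cons_zero]
    split_ifs
    · simp
      omega
    · simp
  · simp only [ext, Fin.cons_succ]
    split_ifs with hi
    · exact hu j i hi
    · simp

theorem elim_hom (o : Option J) :
    (o.elim (MvPolynomial.X 0) fun j => hom (L j) (L j).totalDegree :
      MvPolynomial (Fin (m + 1)) ℤ).IsHomogeneous (o.elim 1 fun j => (L j).totalDegree) := by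
  match o with
  | none => exact MvPolynomial.isHomogeneous_X _ _
  | some j => exact hom_hom _ le_rfl

theorem eval_hom (P : MvPolynomial (Fin m) ℤ) (k : ℕ) (W : Fin m → ℤ) :
    MvPolynomial.eval (Fin.cons 1 W) (hom P k) = MvPolynomial.eval W P := by
  have h1 := hom_one (k := k) (RingHom.id ℤ) P (Fin.cons 1 W) (by simp)
  rw [MvPolynomial.eval₂_id, MvPolynomial.eval₂_id] at h1
  rw [h1]
  congr 1

theorem not_dvd_one (hn : n.Prime) (hδ : 0 < δ) (hdδ : (1 + √2) ^ (δ * n) ≤ (d : ℝ)) :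
    ¬ (d : ℤ) ∣ 1 := by
  intro h1
  have h2 : d = 1 := by
    have := Int.eq_one_of_dvd_one (by positivity) h1
    exact_mod_cast this
  rw [h2] at hdδ
  have hn0 : (0 : ℝ) < n := by exact_mod_cast hn.pos
  have h3 : (1 : ℝ) < (1 + √2) ^ (δ * n) :=
    Real.one_lt_rpow (by have := Real.sqrt_pos.2 (show (0 : ℝ) < 2 by norm_num); linarith)
      (by positivity)
  push_cast at hdδ
  linarith

theorem bound_le (hk : 1 ≤ k) (hδ : 0 < δ) (hδ1 : δ ≤ 1)
    (hb : Real.log n ≤ 4 * (insert 0 S).card * Real.log (15 * k / δ)) :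
    Real.log n ≤ 4 * (S.card + 1) * Real.log (15 * k / δ) := by
  have hcard : ((insert 0 S).card : ℝ) ≤ S.card + 1 := by
    exact_mod_cast Finset.card_insert_le 0 S
  refine hb.trans ?_
  have h1 : 0 ≤ Real.log (15 * k / δ) := by
    refine Real.log_nonneg ?_
    rw [le_div_iff₀ hδ]
    have : (1 : ℝ) ≤ k := by exact_mod_cast hk
    linarith
  nlinarith

include hn hn2 h hk hu hP hlen hδ hδ1 hdδ hd

theorem affX (hdx : (d : ℤ) ∣ x)
    (hreal : ∀ z : Fin m → ℝ, MvPolynomial.eval₂ (Int.castRingHom ℝ) z P = 0 →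
      ∃ j, MvPolynomial.eval₂ (Int.castRingHom ℝ) z (L j) = 0) :
    (∃ j, x ∣ MvPolynomial.eval (fun j => val S (u j) (u' j)) (L j)) ∨
      Real.log n ≤ 4 * (S.card + 1) * Real.log (15 * k / δ) := by
  have hn3 : 3 ≤ n := by
    have := hn.two_le
    omega
  rcases transferX hn hn2 h hk (insert 0 S) (ext S u 0) (ext S u' 1) (ext_le S u u' hu hn3)
    (hom P k) (hom_hom P hP) ((hom_len P).trans hlen)
    (fun o : Option J => o.elim (MvPolynomial.X 0) fun j => hom (L j) (L j).totalDegree)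
    (fun o => o.elim 1 fun j => (L j).totalDegree) (elim_hom L) hδ hδ1 hdδ
    (by rw [ext_val, eval_hom]; exact hd) hdx
    (fun z hz => hom_zeros _ P hP L hreal z hz) with ⟨o, ho⟩ | hb
  · left
    rw [ext_val] at ho
    match o with
    | none =>
      exfalso
      refine not_dvd_one hn hδ hdδ (hdx.trans ?_)
      simpa using ho
    | some j =>
      refine ⟨j, ?_⟩
      rw [Option.elim_some, eval_hom] at ho
      exact ho
  · exact Or.inr (bound_le S hk hδ hδ1 hb)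

theorem affY (hdy : (d : ℤ) ∣ y)
    (hcplx : ∀ z : Fin m → ℂ, MvPolynomial.eval₂ (Int.castRingHom ℂ) z P = 0 →
      ∃ j, MvPolynomial.eval₂ (Int.castRingHom ℂ) z (L j) = 0) :
    (∃ j, y ∣ MvPolynomial.eval (fun j => val S (u j) (u' j)) (L j)) ∨
      Real.log n ≤ 4 * (S.card + 1) * Real.log (15 * k / δ) := by
  have hn3 : 3 ≤ n := by
    have := hn.two_le
    omega
  rcases transferY hn hn2 h hk (insert 0 S) (ext S u 0) (ext S u' 1) (ext_le S u u' hu hn3)
    (hom P k) (hom_hom P hP) ((hom_len P).trans hlen)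
    (fun o : Option J => o.elim (MvPolynomial.X 0) fun j => hom (L j) (L j).totalDegree)
    (fun o => o.elim 1 fun j => (L j).totalDegree) (elim_hom L) hδ hδ1 hdδ
    (by rw [ext_val, eval_hom]; exact hd) hdy
    (fun z hz => hom_zeros _ P hP L hcplx z hz) with ⟨o, ho⟩ | hb
  · left
    rw [ext_val] at ho
    match o with
    | none =>
      exfalso
      refine not_dvd_one hn hδ hdδ (hdy.trans ?_)
      simpa using ho
    | some j =>
      refine ⟨j, ?_⟩
      rw [Option.elim_some, eval_hom] at ho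
      exact ho
  · exact Or.inr (bound_le S hk hδ hδ1 hb)

end

end Pool.Agent.K6.H54.RZ
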