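import Pool.Agent.K6.H54.RZ.Transfer

/-!
# Polynomials in one variable and powers
-/

set_option autoImplicit false

namespace Pool.Agent.K6.H54.RZ

open Finset Pool.Agent.N449.SQ Pool.Agent.K6.H50.SMP

theorem len_add_le {m : ℕ} (P Q : MvPolynomial (Fin m) ℤ) : len (P + Q) ≤ len P + len Q := by
  classical
  have h : ∀ (R' : MvPolynomial (Fin m) ℤ) (T : Finset (Fin m →₀ ℕ)), R'.support ⊆ T →
      len R' = ∑ μ ∈ T, |R'.coeff μ| := by
    intro R' T hT
    refine Finset.sum_subset hT fun μ _ hμ => ?_
    rw [MvPolynomial.notMem_support_iff.1 hμ, abs_zero]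
  rw [h (P + Q) (P.support ∪ Q.support) MvPolynomial.support_add,
    h P (P.support ∪ Q.support) Finset.subset_union_left,
    h Q (P.support ∪ Q.support) Finset.subset_union_right, ← Finset.sum_add_distrib]
  refine Finset.sum_le_sum fun μ _ => ?_
  rw [MvPolynomial.coeff_add]
  exact abs_add_le _ _

theorem len_monomial {m : ℕ} (μ : Fin m →₀ ℕ) (c : ℤ) :
    len (MvPolynomial.monomial μ c) ≤ |c| := by
  classical
  calc len (MvPolynomial.monomial μ c) ≤
      ∑ ν ∈ {μ}, |(MvPolynomial.monomial μ c).coeff ν| :=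
        Finset.sum_le_sum_of_subset_of_nonneg MvPolynomial.support_monomial_subset
          fun _ _ _ => abs_nonneg _
    _ = |c| := by rw [Finset.sum_singleton, MvPolynomial.coeff_monomial, if_pos rfl]

theorem len_sum_le {m : ℕ} {κ : Type*} (T : Finset κ) (P : κ → MvPolynomial (Fin m) ℤ) :
    len (∑ i ∈ T, P i) ≤ ∑ i ∈ T, len (P i) := by
  classical
  induction T using Finset.induction_on with
  | empty => simp [len]
  | insert a T ha ih =>
    rw [Finset.sum_insert ha, Finset.sum_insert ha]
    exact (len_add_le _ _).trans (add_le_add_right ih _)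

theorem U_add (m n : ℕ) : U 2 (m + n + 1) = U 2 m * U 2 n + U 2 (m + 1) * U 2 (n + 1) := by
  induction n using Nat.strong_induction_on with
  | _ n ih =>
    match n with
    | 0 => simp [U]
    | 1 =>
      rw [show m + 1 + 1 = m + 2 from rfl, U]
      simp [U]
      ring
    | n + 2 =>
      have h1 := ih n (by omega)
      have h2 := ih (n + 1) (by omega)
      rw [show m + (n + 2) + 1 = (m + n + 1) + 2 by omega, U,
        show m + n + 1 + 1 = m + (n + 1) + 1 by omega, h1, h2,
        show n + 2 + 1 = (n + 1) + 2 from rfl, U, U]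
      rw [show n + 1 + 1 = n + 2 from rfl, U]
      ring

/-- the homogeneous form of a polynomial -/
noncomputable def homog (T : Polynomial ℤ) (k : ℕ) : MvPolynomial (Fin 2) ℤ :=
  ∑ i ∈ range (k + 1),
    MvPolynomial.monomial (Finsupp.single 1 i + Finsupp.single 0 (k - i)) (T.coeff i)

theorem homog_hom (T : Polynomial ℤ) (k : ℕ) : (homog T k).IsHomogeneous k := by
  refine MvPolynomial.IsHomogeneous.sum _ _ _ fun i hi => ?_
  apply MvPolynomial.isHomogeneous_monomial
  rw [map_add, Finsupp.degree_single, Finsupp.degree_single]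
  have := Finset.mem_range.1 hi
  omega

theorem homog_len (T : Polynomial ℤ) (k : ℕ) :
    len (homog T k) ≤ ∑ i ∈ range (k + 1), |T.coeff i| :=
  (len_sum_le _ _).trans (Finset.sum_le_sum fun _ _ => len_monomial _ _)

theorem homog_eval₂ {R' : Type*} [CommRing R'] (f : ℤ →+* R') (T : Polynomial ℤ) (k : ℕ)
    (z : Fin 2 → R') : MvPolynomial.eval₂ f z (homog T k) =
      ∑ i ∈ range (k + 1), f (T.coeff i) * (z 1 ^ i * z 0 ^ (k - i)) := by
  rw [homog, MvPolynomial.eval₂_sum]
  refine Finset.sum_congr rfl fun i _ => ?_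
  rw [MvPolynomial.eval₂_monomial, Finsupp.prod_add_index', Finsupp.prod_single_index,
    Finsupp.prod_single_index]
  · simp
  · simp
  · simp
  · intro a b c
    rw [pow_add]

theorem val_insert (S : Finset ℕ) (u u' : ℕ → ℤ) :
    val (insert 0 S) (fun i => if i ∈ S then u i else 0) (fun i => if i ∈ S then u' i else 0) =
      val S u u' := by
  classical
  unfold val
  rw [← Finset.sum_subset (Finset.subset_insert 0 S)]
  · refine Finset.sum_congr rfl fun i hi => ?_
    simp [hi]
  · intro i _ hi
    simp [hi]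

theorem val_one (S : Finset ℕ) :
    val (insert 0 S) (fun _ => 0) (fun i => if i = 0 then 1 else 0) = 1 := by
  classical
  unfold val
  rw [Finset.sum_eq_single 0]
  · simp [U]
  · intro i _ hi
    simp [hi]
  · intro h
    exact absurd (Finset.mem_insert_self _ _) h

section

variable {n : ℕ} (hn : n.Prime) (hn2 : n ≠ 2) {x y : ℤ} (h : (x : ℝ) + y * √2 = (1 + √2) ^ n)
  {k : ℕ} (hk : 1 ≤ k) {δ : ℝ} (hδ : 0 < δ) (hδ1 : δ ≤ 1) {d : ℕ}
  (hdδ : (1 + √2) ^ (δ * n) ≤ (d : ℝ)) (hdx : (d : ℤ) ∣ x) (S : Finset ℕ)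

include hn hn2 h hk hδ hδ1 hdδ hdx

/-- Polynomials in one variable. -/
theorem roots (u u' : ℕ → ℤ) (hu : ∀ i ∈ S, |u i| ≤ n ∧ |u' i| ≤ n) (T : Polynomial ℤ)
    (hT : T.natDegree = k) (hlen : ∑ i ∈ range (k + 1), |T.coeff i| ≤ (n : ℤ) ^ k)
    (hreal : ∀ r : ℝ, Polynomial.aeval r T = 0 → ∃ c : ℤ, (c : ℝ) = r)
    (hd : (d : ℤ) ∣ T.eval (val S u u')) :
    (∃ c : ℤ, T.eval c = 0 ∧ x ∣ val S u u' - c) ∨
      Real.log n ≤ 4 * (S.card + 1) * Real.log (15 * k / δ) := by
  classical
  have hn3 : 3 ≤ n := by
    have := hn.two_le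
    omega
  have hnR : (3 : ℝ) ≤ n := by exact_mod_cast hn3
  set W := val S u u' with hW
  set uu : Fin 2 → ℕ → ℤ := ![fun _ => 0, fun i => if i ∈ S then u i else 0] with huu
  set uu' : Fin 2 → ℕ → ℤ := ![fun i => if i = 0 then 1 else 0,
    fun i => if i ∈ S then u' i else 0] with huu'
  have hval : (fun j => val (insert 0 S) (uu j) (uu' j)) = ![1, W] := by
    funext j
    fin_cases j
    · exact val_one S
    · exact val_insert S u u'
  have hub : ∀ j, ∀ i ∈ insert 0 S, |uu j i| ≤ n ∧ |uu' j i| ≤ n := by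
    intro j i _
    fin_cases j
    · show |(0 : ℤ)| ≤ n ∧ |(if i = 0 then 1 else 0 : ℤ)| ≤ n
      refine ⟨by simp, ?_⟩
      split_ifs
      · simp
        omega
      · simp
    · show |(if i ∈ S then u i else 0 : ℤ)| ≤ n ∧ |(if i ∈ S then u' i else 0 : ℤ)| ≤ n
      split_ifs with hi
      · exact hu i hi
      · simp
  set L : Option {c : ℤ // T.eval c = 0} → MvPolynomial (Fin 2) ℤ := fun o =>
    match o with
    | none => MvPolynomial.X 0
    | some c => MvPolynomial.X 1 - MvPolynomial.C (c : ℤ) * MvPolynomial.X 0 with hL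
  have hLh : ∀ o, (L o).IsHomogeneous 1 := by
    intro o
    match o with
    | none => exact MvPolynomial.isHomogeneous_X _ _
    | some c =>
      refine (MvPolynomial.isHomogeneous_X _ _).sub ?_
      have := (MvPolynomial.isHomogeneous_C (Fin 2) (c : ℤ)).mul
        (MvPolynomial.isHomogeneous_X ℤ (0 : Fin 2))
      rwa [zero_add] at this
  have hkey := transferX hn hn2 h hk (insert 0 S) uu uu' hub (homog T k) (homog_hom T k)
    ((homog_len T k).trans hlen) L (fun _ => 1) hLh hδ hδ1 hdδ (by
      rw [hval]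
      have h1 : MvPolynomial.eval ![1, W] (homog T k) = T.eval W := by
        have h2 := homog_eval₂ (RingHom.id ℤ) T k ![1, W]
        rw [MvPolynomial.eval₂_id] at h2
        rw [h2, Polynomial.eval_eq_sum_range, hT]
        refine Finset.sum_congr rfl fun i _ => ?_
        simp
      rw [h1]
      exact hd) hdx (by
      intro z hz
      rw [homog_eval₂] at hz
      by_cases hz0 : z 0 = 0
      · refine ⟨none, ?_⟩
        simp [hL, hz0]
      · have h1 : Polynomial.aeval (z 1 / z 0) T = 0 := by
          have h2 : (z 0) ^ k * Polynomial.aeval (z 1 / z 0) T = 0 := by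
            rw [← hz, Polynomial.aeval_eq_sum_range, hT, Finset.mul_sum]
            refine Finset.sum_congr rfl fun i hi => ?_
            have hi' : i ≤ k := by
              have := Finset.mem_range.1 hi
              omega
            have h3 : (z 0) ^ k = z 0 ^ (k - i) * z 0 ^ i := by
              rw [← pow_add, Nat.sub_add_cancel hi']
            rw [h3, div_pow, zsmul_eq_mul]
            simp only [eq_intCast]
            field_simp
          exact (mul_eq_zero.1 h2).resolve_left (pow_ne_zero _ hz0)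
        obtain ⟨c, hc⟩ := hreal _ h1
        have hc0 : T.eval c = 0 := by
          rw [← hc] at h1
          have h2 : Polynomial.aeval (c : ℝ) T = ((T.eval c : ℤ) : ℝ) := by
            rw [Polynomial.aeval_eq_sum_range, Polynomial.eval_eq_sum_range]
            push_cast
            refine Finset.sum_congr rfl fun i _ => ?_
            rw [zsmul_eq_mul]
          rw [h2] at h1
          exact_mod_cast h1
        refine ⟨some ⟨c, hc0⟩, ?_⟩
        simp only [hL, MvPolynomial.eval₂_sub, MvPolynomial.eval₂_mul, MvPolynomial.eval₂_X,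
          MvPolynomial.eval₂_C]
        rw [eq_intCast, hc]
        field_simp
        ring)
  have hcard : ((insert 0 S).card : ℝ) ≤ S.card + 1 := by
    exact_mod_cast Finset.card_insert_le 0 S
  rcases hkey with ⟨o, ho⟩ | hb
  · left
    rw [hval] at ho
    match o with
    | none =>
      exfalso
      simp only [hL, MvPolynomial.eval_X] at ho
      have h1 : (d : ℤ) ∣ 1 := hdx.trans (by simpa using ho)
      have h2 : d = 1 := by
        have := Int.eq_one_of_dvd_one (by positivity) h1
        exact_mod_cast this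
      rw [h2] at hdδ
      have h3 : (1 : ℝ) < (1 + √2) ^ (δ * n) :=
        Real.one_lt_rpow (by have := Real.sqrt_pos.2 (show (0 : ℝ) < 2 by norm_num); linarith)
          (by positivity)
      push_cast at hdδ
      linarith
    | some c =>
      refine ⟨c, c.2, ?_⟩
      simpa [hL] using ho
  · right
    refine hb.trans ?_
    have h1 : 0 ≤ Real.log (15 * k / δ) := by
      refine Real.log_nonneg ?_
      rw [le_div_iff₀ hδ]
      have : (1 : ℝ) ≤ k := by exact_mod_cast hk
      linarith
    nlinarith

/-- Powers. -/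
theorem powers (u u' v v' : ℕ → ℤ) (hu : ∀ i ∈ S, |u i| ≤ n ∧ |u' i| ≤ n)
    (hv : ∀ i ∈ S, |v i| ≤ n ∧ |v' i| ≤ n) (hd : (d : ℤ) ∣ val S u u' ^ k - val S v v' ^ k) :
    x ∣ val S u u' - val S v v' ∨ (Even k ∧ x ∣ val S u u' + val S v v') ∨
      Real.log n ≤ 4 * S.card * Real.log (15 * k / δ) := by
  classical
  have hn3 : 3 ≤ n := by
    have := hn.two_le
    omega
  set P : MvPolynomial (Fin 2) ℤ := MvPolynomial.monomial (Finsupp.single 0 k) 1 +
    MvPolynomial.monomial (Finsupp.single 1 k) (-1) with hP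
  have hPh : P.IsHomogeneous k := by
    refine MvPolynomial.IsHomogeneous.add ?_ ?_
    · apply MvPolynomial.isHomogeneous_monomial
      rw [Finsupp.degree_single]
    · apply MvPolynomial.isHomogeneous_monomial
      rw [Finsupp.degree_single]
  have hlen : len P ≤ (n : ℤ) ^ k := by
    refine (len_add_le _ _).trans ((add_le_add (len_monomial _ _) (len_monomial _ _)).trans ?_)
    have h1 : (n : ℤ) ^ 1 ≤ (n : ℤ) ^ k := pow_le_pow_right₀ (by omega) hk
    rw [pow_one] at h1
    simp
    omega
  have hev : ∀ {R' : Type} [CommRing R'] (f : ℤ →+* R') (z : Fin 2 → R'),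
      MvPolynomial.eval₂ f z P = z 0 ^ k - z 1 ^ k := by
    intro R' _ f z
    rw [hP, MvPolynomial.eval₂_add, MvPolynomial.eval₂_monomial, MvPolynomial.eval₂_monomial,
      Finsupp.prod_single_index (by simp), Finsupp.prod_single_index (by simp)]
    simp
    ring
  set L : {b : Bool // b = true ∨ Even k} → MvPolynomial (Fin 2) ℤ := fun b =>
    if (b : Bool) = true then MvPolynomial.X 0 - MvPolynomial.X 1
      else MvPolynomial.X 0 + MvPolynomial.X 1 with hL
  have hLh : ∀ b, (L b).IsHomogeneous 1 := by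
    intro b
    simp only [hL]
    split_ifs
    · exact (MvPolynomial.isHomogeneous_X _ _).sub (MvPolynomial.isHomogeneous_X _ _)
    · exact (MvPolynomial.isHomogeneous_X _ _).add (MvPolynomial.isHomogeneous_X _ _)
  have hkey := transferX hn hn2 h hk S ![u, v] ![u', v'] (by
      intro j i hi
      fin_cases j
      · exact hu i hi
      · exact hv i hi) P hPh hlen L (fun _ => 1) hLh hδ hδ1 hdδ (by
      have h1 := hev (RingHom.id ℤ) (fun j => val S (![u, v] j) (![u', v'] j))
      rw [MvPolynomial.eval₂_id] at h1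
      rw [h1]
      exact hd) hdx (by
      intro z hz
      rw [hev, sub_eq_zero] at hz
      rcases Nat.even_or_odd k with hke | hko
      · have hz' : |z 0| ^ k = |z 1| ^ k := by rw [hke.pow_abs, hke.pow_abs, hz]
        rcases abs_eq_abs.1 ((pow_left_inj₀ (abs_nonneg _) (abs_nonneg _) (by omega)).1 hz')
          with h1 | h1
        · refine ⟨⟨true, Or.inl rfl⟩, ?_⟩
          simp [hL, h1]
        · refine ⟨⟨false, Or.inr hke⟩, ?_⟩
          simp [hL, h1]
      · refine ⟨⟨true, Or.inl rfl⟩, ?_⟩
        have h1 := hko.pow_injective hz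
        simp [hL, h1])
  rcases hkey with ⟨⟨b, hb⟩, ho⟩ | hb
  · cases b
    · right
      left
      refine ⟨by simpa using hb, ?_⟩
      simpa [hL] using ho
    · left
      simpa [hL] using ho
  · exact Or.inr (Or.inr hb)

end

end Pool.Agent.K6.H54.RZ
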