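import Pool.Agent.K6.H54.RZ.Rep

/-!
# When the determinant vanishes
-/

set_option autoImplicit false

namespace Pool.Agent.K6.H54.RZ

open Finset Polynomial Pool.Agent.N449.SQ Pool.Agent.K6.H50.SMP

variable {a : ℤ} {N q : ℕ} {σ : ℤˣ} {f : (K a)[X]}

/-- the inclusion -/
noncomputable abbrev fi (a : ℤ) (f : (K a)[X]) : R a →+* AdjoinRoot f :=
  (AdjoinRoot.of f).comp (inc a)

theorem root_pow (hf : f = X ^ q - C (inc a (((σ : ℤ) : R a) * w a (-N)))) :
    (AdjoinRoot.root f) ^ q = fi a f (((σ : ℤ) : R a) * w a (-N)) := by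
  have h1 : AdjoinRoot.mk f (X ^ q - C (inc a (((σ : ℤ) : R a) * w a (-N)))) = 0 := by
    rw [← hf]
    exact AdjoinRoot.mk_self
  rw [map_sub, map_pow, AdjoinRoot.mk_X, AdjoinRoot.mk_C] at h1
  exact sub_eq_zero.1 h1

theorem fi_inj (ha : 1 ≤ a) (hirr : Irreducible f) : Function.Injective (fi a f) := by
  have hK := fact ha
  have hfact : Fact (Irreducible f) := ⟨hirr⟩
  exact (AdjoinRoot.of f).injective.comp (inc_inj a)

theorem root_ne (hf : f = X ^ q - C (inc a (((σ : ℤ) : R a) * w a (-N)))) (ha : 1 ≤ a)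
    (hq : 0 < q) (hirr : Irreducible f) : AdjoinRoot.root f ≠ 0 := by
  have hdom := isDomain ha
  have hσ2 : ((σ : ℤ) : R a) * ((σ : ℤ) : R a) = 1 := by
    rcases Int.units_eq_one_or σ with h | h <;> simp [h]
  have hσ0 : ((σ : ℤ) : R a) ≠ 0 := fun h => by rw [h, mul_zero] at hσ2; exact zero_ne_one hσ2
  intro h
  have hroot := root_pow hf
  rw [h, zero_pow hq.ne'] at hroot
  have h1 : ((σ : ℤ) : R a) * w a (-N) = 0 := fi_inj ha hirr (by rw [← hroot, map_zero])
  rcases mul_eq_zero.1 h1 with h2 | h2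
  · exact hσ0 h2
  · exact w_ne_zero a _ h2

theorem rel (hf : f = X ^ q - C (inc a (((σ : ℤ) : R a) * w a (-N)))) (θ : (AdjoinRoot f)ˣ)
    (hθ : (θ : AdjoinRoot f) = AdjoinRoot.root f) :
    Units.map (fi a f : R a →* AdjoinRoot f) (wu a) ^ N * θ ^ q =
      Units.map (Int.castRingHom (AdjoinRoot f) : ℤ →* AdjoinRoot f) σ := by
  apply Units.ext
  have h1 : ((Units.map (fi a f : R a →* AdjoinRoot f) (wu a) ^ N :
      (AdjoinRoot f)ˣ) : AdjoinRoot f) = fi a f (w a N) := by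
    rw [map_w, zpow_natCast]
  have h2 : ((θ ^ q : (AdjoinRoot f)ˣ) : AdjoinRoot f) =
      fi a f (((σ : ℤ) : R a) * w a (-N)) := by
    rw [Units.val_pow_eq_pow_val, ← root_pow hf, hθ]
  rw [Units.val_mul, h1, h2, ← map_mul]
  have h3 : w a N * (((σ : ℤ) : R a) * w a (-N)) = ((σ : ℤ) : R a) := by
    have h4 : w a N * w a (-N) = 1 := by rw [← w_add, add_neg_cancel, w_zero]
    linear_combination ((σ : ℤ) : R a) * h4
  rw [h3, map_intCast]
  rfl

/-- If the determinant vanishes then the element of the field vanishes. -/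
theorem ev_of_det (hf : f = X ^ q - C (inc a (((σ : ℤ) : R a) * w a (-N)))) {ι : Type*}
    (ha : 1 ≤ a) {I : Finset ι}
    {b : ι → R a} {x α : ι → ℤ} (hq : 0 < q) (hirr : Irreducible f)
    (θ : (AdjoinRoot f)ˣ) (hθd : (θ : AdjoinRoot f) = AdjoinRoot.root f)
    (h0 : (mat a N q σ I b x α).det = 0) :
    ∑ k ∈ I, fi a f (b k) *
      ((Units.map (fi a f : R a →* AdjoinRoot f) (wu a) ^ x k * θ ^ α k :
        (AdjoinRoot f)ˣ) : AdjoinRoot f) = 0 := by
  classical
  have hdom := isDomain ha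
  have hK := fact ha
  obtain ⟨v, hv, hMv⟩ := Matrix.exists_mulVec_eq_zero_iff.2 h0
  have hθ := rel hf θ hθd
  have hfact : Fact (Irreducible f) := ⟨hirr⟩
  set φ : R a →+* AdjoinRoot f := fi a f with hφ
  set E := Units.map (φ : R a →* AdjoinRoot f) (wu a) with hE
  set P : (K a)[X] := ∑ j : Fin q, C (inc a (v j * w a ((j : ℕ) * N / q : ℕ))) * X ^ (j : ℕ) with hP
  have hPθ : AdjoinRoot.mk f P =
      ∑ j : Fin q, φ (v j) * ((E ^ ((j : ℕ) * N / q) * θ ^ (j : ℕ) : (AdjoinRoot f)ˣ) :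
        AdjoinRoot f) := by
    rw [hP, map_sum]
    refine Finset.sum_congr rfl fun j _ => ?_
    rw [map_mul, map_pow, AdjoinRoot.mk_X, AdjoinRoot.mk_C]
    have h3 : AdjoinRoot.of f (inc a (v j * w a ((j : ℕ) * N / q : ℕ))) =
        φ (v j) * φ (w a ((j : ℕ) * N / q : ℕ)) := by
      rw [← map_mul]
      rfl
    rw [h3, map_w, zpow_natCast, Units.val_mul, Units.val_pow_eq_pow_val θ, hθd]
    ring
  have hprod : (∑ k ∈ I, φ (b k) * ((E ^ x k * θ ^ α k : (AdjoinRoot f)ˣ) : AdjoinRoot f)) *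
      AdjoinRoot.mk f P = 0 := by
    rw [hPθ, Finset.mul_sum]
    have h2 : ∀ j : Fin q, (∑ k ∈ I, φ (b k) * ((E ^ x k * θ ^ α k : (AdjoinRoot f)ˣ) :
        AdjoinRoot f)) * (φ (v j) * ((E ^ ((j : ℕ) * N / q) * θ ^ (j : ℕ) : (AdjoinRoot f)ˣ) :
        AdjoinRoot f)) = ∑ i : Fin q, φ (mat a N q σ I b x α i j * v j) *
          ((E ^ ((i : ℕ) * N / q) * θ ^ (i : ℕ) : (AdjoinRoot f)ˣ) : AdjoinRoot f) := by
      intro j
      have h3 := key (I := I) (b := b) (x := x) (α := α) hq φ θ hθ j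
      rw [← hE] at h3
      have h4 : ∑ i : Fin q, φ (mat a N q σ I b x α i j * v j) *
          ((E ^ ((i : ℕ) * N / q) * θ ^ (i : ℕ) : (AdjoinRoot f)ˣ) : AdjoinRoot f) =
          φ (v j) * ∑ i : Fin q, φ (mat a N q σ I b x α i j) *
          ((E ^ ((i : ℕ) * N / q) * θ ^ (i : ℕ) : (AdjoinRoot f)ˣ) : AdjoinRoot f) := by
        rw [Finset.mul_sum]
        refine Finset.sum_congr rfl fun i _ => ?_
        rw [map_mul]
        ring
      rw [h4, h3]
      ring
    rw [Finset.sum_congr rfl fun j _ => h2 j, Finset.sum_comm]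
    refine Finset.sum_eq_zero fun i _ => ?_
    have h3 : ∑ j : Fin q, mat a N q σ I b x α i j * v j = 0 := by
      have := congrFun hMv i
      rwa [Matrix.mulVec, dotProduct, Pi.zero_apply] at this
    rw [← Finset.sum_mul, ← map_sum, h3, map_zero, zero_mul]
  rcases mul_eq_zero.1 hprod with h | h
  · exact h
  · -- a polynomial of smaller degree
    exfalso
    have h1 : f ∣ P := AdjoinRoot.mk_eq_zero.1 h
    have hdeg : P.natDegree < q := by
      refine lt_of_le_of_lt (natDegree_sum_le_of_forall_le (n := q - 1) _ _ fun j _ => ?_) (by omega)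
      refine (natDegree_C_mul_X_pow_le _ _).trans ?_
      have := j.2
      omega
    have hfdeg : f.natDegree = q := by rw [hf]; exact natDegree_X_pow_sub_C
    have hP0 : P = 0 := by
      by_contra hne
      have := natDegree_le_of_dvd h1 hne
      omega
    apply hv
    funext j
    have h2 : P.coeff (j : ℕ) = inc a (v j * w a ((j : ℕ) * N / q : ℕ)) := by
      rw [hP, finsetSum_coeff, Finset.sum_eq_single j]
      · rw [coeff_C_mul_X_pow, if_pos rfl]
      · intro i _ hij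
        rw [coeff_C_mul_X_pow, if_neg]
        intro h3
        exact hij (Fin.ext h3.symm)
      · intro h3
        exact absurd (Finset.mem_univ _) h3
    rw [hP0, coeff_zero] at h2
    have h3 : v j * w a ((j : ℕ) * N / q : ℕ) = 0 := inc_inj a (by rw [← h2, map_zero])
    exact (mul_eq_zero.1 h3).resolve_right (w_ne_zero a _)

/-- If the element of the field vanishes then `1 - σ ε ^ (-N)` divides the number. -/
theorem dvd_of_ev (hf : f = X ^ q - C (inc a (((σ : ℤ) : R a) * w a (-N)))) {ι : Type*}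
    {I : Finset ι} {b : ι → R a} {x α : ι → ℤ} (hq : 0 < q)
    (θ : (AdjoinRoot f)ˣ) (hθd : (θ : AdjoinRoot f) = AdjoinRoot.root f)
    (h : ∑ k ∈ I, fi a f (b k) *
      ((Units.map (fi a f : R a →* AdjoinRoot f) (wu a) ^ x k * θ ^ α k :
        (AdjoinRoot f)ˣ) : AdjoinRoot f) = 0) :
    (1 - ((σ : ℤ) : R a) * w a (-N)) ∣ ∑ k ∈ I, b k * w a (x k) := by
  classical
  set φ : R a →+* AdjoinRoot f := fi a f with hφ
  set E := Units.map (φ : R a →* AdjoinRoot f) (wu a) with hE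
  set T : ℕ := ∑ k ∈ I, (α k).natAbs with hT
  have hTk : ∀ k ∈ I, 0 ≤ α k + T := by
    intro k hk
    have h1 : (α k).natAbs ≤ T := Finset.single_le_sum (f := fun k => (α k).natAbs)
      (fun _ _ => Nat.zero_le _) hk
    omega
  set D : (R a)[X] := ∑ k ∈ I, C (b k * w a (x k)) * X ^ (α k + T).toNat with hD
  have hDθ : AdjoinRoot.mk f (D.map (inc a)) =
      ((θ ^ T : (AdjoinRoot f)ˣ) : AdjoinRoot f) *
        ∑ k ∈ I, φ (b k) * ((E ^ x k * θ ^ α k : (AdjoinRoot f)ˣ) : AdjoinRoot f) := by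
    rw [hD, Polynomial.map_sum, map_sum, Finset.mul_sum]
    refine Finset.sum_congr rfl fun k hk => ?_
    rw [Polynomial.map_mul, Polynomial.map_pow, map_C, map_X, map_mul, map_pow, AdjoinRoot.mk_X,
      AdjoinRoot.mk_C]
    have h1 : AdjoinRoot.root f ^ (α k + T).toNat =
        ((θ ^ (α k + T) : (AdjoinRoot f)ˣ) : AdjoinRoot f) := by
      have h2 : (((α k + T).toNat : ℕ) : ℤ) = α k + T := Int.toNat_of_nonneg (hTk k hk)
      have h2' : θ ^ (α k + T) = θ ^ (α k + T).toNat := by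
        conv_lhs => rw [← h2]
        rw [zpow_natCast]
      rw [h2', Units.val_pow_eq_pow_val, hθd]
    have h3 : AdjoinRoot.of f (inc a (b k * w a (x k))) = φ (b k) * φ (w a (x k)) := by
      rw [← map_mul]
      rfl
    rw [h1, h3, map_w, zpow_add, zpow_natCast]
    push_cast
    ring
  have hfmap : f = (X ^ q - C (((σ : ℤ) : R a) * w a (-N)) : (R a)[X]).map (inc a) := by
    rw [hf, Polynomial.map_sub, Polynomial.map_pow, map_X, map_C]
  rw [h, mul_zero] at hDθ
  have h1 : f ∣ D.map (inc a) := AdjoinRoot.mk_eq_zero.1 hDθ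
  rw [hfmap] at h1
  have h2 := (Polynomial.map_dvd_map (inc a) (inc_inj a) (monic_X_pow_sub_C _ hq.ne')).1 h1
  have h4 := Polynomial.eval_dvd (x := (1 : R a)) h2
  rw [hD, eval_finsetSum] at h4
  simpa using h4

end Pool.Agent.K6.H54.RZ
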