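import Pool.Agent.K6.H54.RZ.Ev

/-!
# Zeros of forms modulo divisors of `V_p`
-/

set_option autoImplicit false

namespace Pool.Agent.K6.H54.RZ

open Finset Polynomial Pool.Agent.N449.SQ Pool.Agent.K6.H50.SMP

/-- the real embedding -/
theorem exists_real (a : ℤ) {p q : ℕ} (hq : 0 < q) {f : (K a)[X]}
    (hf : f = X ^ q - C (inc a ((((1 : ℤˣ) : ℤ) : R a) * w a (-(p : ℤ))))) :
    ∃ _ψ : AdjoinRoot f →+* ℝ, True := by
  refine ⟨AdjoinRoot.lift (t₁ a) ((eps a ^ (-(p : ℤ))) ^ ((q : ℝ)⁻¹)) ?_, trivial⟩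
  have h0 : (0 : ℝ) ≤ eps a ^ (-(p : ℤ)) := (zpow_pos (eps_pos a) _).le
  have h1 : (((1 : ℤˣ) : ℤ) : R a) = 1 := by simp
  rw [hf, eval₂_sub, eval₂_pow, eval₂_X, eval₂_C, h1, one_mul, t₁_w,
    Real.rpow_inv_natCast_pow h0 hq.ne', sub_self]

theorem aeval_hom {R' : Type*} [CommRing R'] {m k : ℕ} (W : Fin m → ℤ) (c : R')
    (P : MvPolynomial (Fin m) ℤ) (hP : P.IsHomogeneous k) :
    MvPolynomial.eval₂ (Int.castRingHom R') (fun j => (W j : R') * c) P =
      c ^ k * ((MvPolynomial.eval W P : ℤ) : R') := by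
  rw [MvPolynomial.eval₂_eq', MvPolynomial.eval_eq']
  push_cast
  rw [Finset.mul_sum]
  refine Finset.sum_congr rfl fun μ hμ => ?_
  have hk : ∑ j, μ j = k := by
    have := hP (MvPolynomial.mem_support_iff.1 hμ)
    rw [← this, Finsupp.weight_apply, Finsupp.sum_fintype]
    · simp
    · simp
  have h1 : ∏ j, ((W j : R') * c) ^ μ j = (∏ j, (W j : R') ^ μ j) * c ^ k := by
    rw [← hk, ← Finset.prod_pow_eq_pow_sum, ← Finset.prod_mul_distrib]
    exact Finset.prod_congr rfl fun j _ => mul_pow _ _ _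
  rw [h1]
  simp only [eq_intCast]
  ring

theorem dl_sq (a : ℤ) : dl a * dl a = ((a ^ 2 + 4 : ℤ) : R a) := by
  ext
  · rw [QuadraticAlgebra.re_mul, QuadraticAlgebra.re_intCast]
    simp only [dl, Int.cast_id]
    ring
  · rw [QuadraticAlgebra.im_mul, QuadraticAlgebra.im_intCast]
    simp only [dl]
    ring

/-- From the ring to the integers. -/
theorem dvd_int {a : ℤ} {p : ℕ} (hpo : Odd p) {l : ℕ} {M : ℤ}
    (h : (1 - (((1 : ℤˣ) : ℤ) : R a) * w a (-p)) ∣ dl a ^ l * (M : R a)) :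
    V a p ∣ 2 * (a ^ 2 + 4) ^ l * M := by
  obtain ⟨z, hz⟩ := h
  have h4 : (((1 : ℤˣ) : ℤ) : R a) = 1 := by simp
  rw [h4, one_mul] at hz
  have h5 : w a p * w a (-p) = 1 := by rw [← w_add, add_neg_cancel, w_zero]
  have hsw : star (w a p) = -w a (-p) := by
    rw [star_w, hpo.neg_one_pow]; ring
  have hVp : w a p - w a (-p) = ((V a p : ℤ) : R a) := by
    rw [← w_add_star, hsw]
    ring
  have h6 : (dl a * (1 + w a p)).im = V a p + 2 := by
    have h7 := mul_w_im a (-a) 2 p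
    rw [mul_add, mul_one, QuadraticAlgebra.im_add]
    unfold dl
    rw [h7, V_eq]
    simp only
    ring
  have h7 : dl a ^ l * dl a ^ l = (((a ^ 2 + 4) ^ l : ℤ) : R a) := by
    rw [← mul_pow, dl_sq]
    push_cast
    rfl
  have h3 : ((V a p : ℤ) : R a) * (z * (dl a ^ l * dl a)) =
      (((a ^ 2 + 4) ^ l * M : ℤ) : R a) * (dl a * (1 + w a p)) := by
    have h8 : (((a ^ 2 + 4) ^ l * M : ℤ) : R a) = dl a ^ l * dl a ^ l * (M : R a) := by
      rw [h7]
      push_cast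
      rfl
    rw [h8]
    linear_combination (-(1 + w a p) * (dl a ^ l * dl a)) * hz - (z * (dl a ^ l * dl a)) * hVp +
      (z * (dl a ^ l * dl a)) * h5
  have h8 := congrArg QuadraticAlgebra.im h3
  simp only [QuadraticAlgebra.im_mul, QuadraticAlgebra.re_intCast, QuadraticAlgebra.im_intCast,
    Int.cast_id, zero_mul, mul_zero, add_zero] at h8 h6
  refine ⟨(z * (dl a ^ l * dl a)).im - (a ^ 2 + 4) ^ l * M, ?_⟩
  have h9 : V a p * (z * (dl a ^ l * dl a)).im = (a ^ 2 + 4) ^ l * M * (V a p + 2) := by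
    rw [← h6]
    simp only [QuadraticAlgebra.im_mul]
    linear_combination h8
  linear_combination -h9

section

variable {a : ℤ} (ha : 1 ≤ a) (hV : ∀ (T : ℤ) (r : ℕ), 1 ≤ T → 2 ≤ r → Odd r → V T r ≠ a)
  {p : ℕ} (hp : p.Prime) (hp2 : p ≠ 2) (S : Finset ℕ) {m : ℕ} (β : Fin m → ℕ → R a)

include ha hV hp hp2

/-- **Zeros of forms.** -/
theorem zeros {k : ℕ} (P : MvPolynomial (Fin m) ℤ) (hP : P.IsHomogeneous k) {J : Type*}
    (L : J → MvPolynomial (Fin m) ℤ) (l : J → ℕ) (hL : ∀ j, (L j).IsHomogeneous (l j))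
    (hreal : ∀ z : Fin m → ℝ, MvPolynomial.eval₂ (Int.castRingHom ℝ) z P = 0 →
      ∃ j, MvPolynomial.eval₂ (Int.castRingHom ℝ) z (L j) = 0)
    {H d : ℕ} (hH : 1 ≤ H) (hHp : H ^ S.card < p) (hd1 : (d : ℤ) ∣ V a p)
    (hd2 : (d : ℤ) ∣ MvPolynomial.eval (fun j => ∑ i ∈ S, (β j i * w a i).im) P)
    {A : ℝ} (hA1 : 1 ≤ A) (hA : ∀ j, ∑ i ∈ S, hs a (β j i) ≤ A) :
    (∃ j, V a p ∣ 2 * (a ^ 2 + 4) ^ (l j) *
      MvPolynomial.eval (fun j => ∑ i ∈ S, (β j i * w a i).im) (L j)) ∨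
    (d : ℝ) ≤ (((len P : ℝ) * (2 * A) ^ k) ^ (H ^ S.card) *
      eps a ^ (k * (p / H) + H ^ S.card)) ^ 2 := by
  classical
  have hdom := isDomain ha
  have hK := fact ha
  have hpo : Odd p := hp.odd_of_ne_two hp2
  have he1 := one_lt_eps ha
  set W : Fin m → ℤ := fun j => ∑ i ∈ S, (β j i * w a i).im with hW
  have hsw : star (w a p) = -w a (-p) := by
    rw [star_w, hpo.neg_one_pow]; ring
  have h5 : w a p * w a (-p) = 1 := by rw [← w_add, add_neg_cancel, w_zero]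
  have hVp : w a p - w a (-p) = ((V a p : ℤ) : R a) := by
    rw [← w_add_star, hsw]
    ring
  obtain ⟨q, α, hq1, hq2, hα⟩ := dir (N := p) (H := H) hp.pos hH S
  have hq0 : 0 < q := hq1
  obtain ⟨f, hf⟩ : ∃ f : (K a)[X],
    f = X ^ q - C (inc a ((((1 : ℤˣ) : ℤ) : R a) * w a (-(p : ℤ)))) := ⟨_, rfl⟩
  have hirr : Irreducible f := by
    rw [hf]
    exact irrV ha hV hp hp2 hq0 (by omega)
  have hfact : Fact (Irreducible f) := ⟨hirr⟩
  obtain ⟨θ, hθ⟩ : ∃ θ : (AdjoinRoot f)ˣ, (θ : AdjoinRoot f) = AdjoinRoot.root f :=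
    ⟨Units.mk0 _ (root_ne hf ha hq0 hirr), rfl⟩
  obtain ⟨v, hv⟩ : ∃ v : Fin m → AdjoinRoot f, ∀ j,
      v j = ∑ κ ∈ S ×ˢ (Finset.univ : Finset Bool), fi a f (bb a (β j) κ) *
        ((Units.map (fi a f : R a →* AdjoinRoot f) (wu a) ^ xx κ * θ ^ α κ :
          (AdjoinRoot f)ˣ) : AdjoinRoot f) := ⟨_, fun _ => rfl⟩
  have hrep : ∀ j, Rep a (fi a f) θ p q (p / H) (2 * A) (v j) ((W j : R a) * dl a) := by
    intro j
    refine ⟨(S ×ˢ (Finset.univ : Finset Bool) : Finset (ℕ × Bool)), inferInstance,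
      fun κ => bb a (β j) κ, fun κ => xx κ, fun κ => α κ, fun κ => hα κ κ.2, ?_, ?_, ?_, ?_⟩
    · rw [Finset.sum_coe_sort (S ×ˢ (Finset.univ : Finset Bool))
        (fun κ => |s₁ a (bb a (β j) κ)|)]
      refine (sum_hs a S (β j) (s₁ a) fun z => le_max_left _ _).trans ?_
      have := hA j
      linarith
    · rw [Finset.sum_coe_sort (S ×ˢ (Finset.univ : Finset Bool))
        (fun κ => |s₂ a (bb a (β j) κ)|)]
      refine (sum_hs a S (β j) (s₂ a) fun z => le_max_right _ _).trans ?_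
      have := hA j
      linarith
    · rw [hv j]
      exact Finset.sum_coe_sort (S ×ˢ (Finset.univ : Finset Bool))
        (fun κ => fi a f (bb a (β j) κ) *
        ((Units.map (fi a f : R a →* AdjoinRoot f) (wu a) ^ xx κ * θ ^ α κ :
          (AdjoinRoot f)ˣ) : AdjoinRoot f))
    · rw [Finset.sum_coe_sort (S ×ˢ (Finset.univ : Finset Bool))
        (fun κ => bb a (β j) κ * w a (xx κ))]
      exact sum_bb a S (β j)
  obtain ⟨ι, _, b, x, α', g0, g1, g2, g3, g4⟩ := Rep.form hrep P hP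
  rw [aeval_hom W (dl a) P hP] at g4
  by_cases hdet : (mat a p q 1 Finset.univ b x α').det = 0
  · left
    have h0 := ev_of_det hf ha hq0 hirr θ hθ hdet
    rw [g3] at h0
    obtain ⟨ψ, -⟩ := exists_real a (p := p) hq0 hf
    have hψ : ∀ Q : MvPolynomial (Fin m) ℤ,
        MvPolynomial.eval₂ (Int.castRingHom ℝ) (fun j => ψ (v j)) Q =
        ψ (MvPolynomial.eval₂ (Int.castRingHom (AdjoinRoot f)) v Q) := by
      intro Q
      rw [MvPolynomial.eval₂_comp_left]
      congr 1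
      exact Subsingleton.elim _ _
    obtain ⟨j, hj⟩ := hreal (fun j => ψ (v j)) (by rw [hψ, h0, map_zero])
    rw [hψ, map_eq_zero ψ] at hj
    obtain ⟨ι', _, b', x', α'', -, -, -, k3, k4⟩ := Rep.form hrep (L j) (hL j)
    rw [hj] at k3
    rw [aeval_hom W (dl a) (L j) (hL j)] at k4
    refine ⟨j, dvd_int hpo ?_⟩
    rw [← k4]
    exact dvd_of_ev hf hq0 θ hθ k3
  right
  set M := mat a p q 1 Finset.univ b x α' with hM
  have hmem : M.det ∈ Ideal.span {((d : ℤ) : R a), w a p - 1} := by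
    refine det_mem hq0 _ ?_ ?_
    · have h4 : (((1 : ℤˣ) : ℤ) : R a) = 1 := by simp
      rw [h4]
      exact Ideal.subset_span (by simp)
    · rw [g4]
      refine Ideal.mul_mem_left _ _ ?_
      obtain ⟨c, hc⟩ := hd2
      rw [hc]
      push_cast
      exact Ideal.mul_mem_right _ _ (Ideal.subset_span (by simp))
  obtain ⟨y, z, hyz⟩ := Ideal.mem_span_pair.1 hmem
  -- the norm
  have hnorm : (d : ℤ) ∣ QuadraticAlgebra.norm M.det := by
    obtain ⟨c, hc⟩ := hd1
    have h1 : M.det * star M.det = ((d : ℤ) : R a) * (y * star y * ((d : ℤ) : R a) +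
        y * star (z * (w a p - 1)) + star y * (z * (w a p - 1)) -
        ((c : ℤ) : R a) * (z * star z)) := by
      have h2 : (w a p - 1) * star (w a p - 1) = -(((d : ℤ) : R a) * ((c : ℤ) : R a)) := by
        rw [star_sub, star_one, hsw]
        have h3 : ((V a p : ℤ) : R a) = ((d : ℤ) : R a) * ((c : ℤ) : R a) := by
          rw [hc]
          push_cast
          ring
        rw [h3] at hVp
        linear_combination (-1 : R a) * hVp - h5
      have h3 : star (((d : ℤ) : R a)) = ((d : ℤ) : R a) := by simp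
      rw [← hyz, star_add, star_mul' y, h3, star_mul' z]
      linear_combination (z * star z) * h2
    have h2 : ((QuadraticAlgebra.norm M.det : ℤ) : R a) = M.det * star M.det := by
      have := QuadraticAlgebra.algebraMap_norm_eq_mul_star M.det
      rw [← this]
      simp
    rw [← h2] at h1
    have h3 := congrArg QuadraticAlgebra.re h1
    rw [QuadraticAlgebra.re_mul] at h3
    simp only [QuadraticAlgebra.re_intCast, QuadraticAlgebra.im_intCast, Int.cast_id, zero_mul,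
      mul_zero, add_zero] at h3
    exact ⟨_, h3⟩
  have hn0 := norm_ne_zero ha hdet
  set u : ℝ := (len P : ℝ) * (2 * A) ^ k with hu
  have b1 := det_le ha (σ := 1) (b := b) (I := Finset.univ) (α := α') hq0 (fun k _ => g0 k)
    (s := s₁ a) (fun y => abs_s₁_w a y ha) g1
  have b2 := det_le ha (σ := 1) (b := b) (I := Finset.univ) (α := α') hq0 (fun k _ => g0 k)
    (s := s₂ a) (fun y => abs_s₂_w' a y ha) g2
  rw [← hM] at b1 b2
  have hlen0 : 0 ≤ len P := Finset.sum_nonneg fun _ _ => abs_nonneg _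
  have hlen : 1 ≤ len P := by
    by_contra hcon
    have h1 : len P = 0 := by omega
    rw [hu, h1, Int.cast_zero, zero_mul, zero_pow hq0.ne', zero_mul] at b1
    have h2 : s₁ a M.det = 0 := abs_nonpos_iff.1 b1
    exact hdet (s₁_inj ha (by rw [h2, map_zero]))
  have hu1 : 1 ≤ u := by
    have h1 : (1 : ℝ) ≤ len P := by exact_mod_cast hlen
    have h2 : (1 : ℝ) ≤ (2 * A) ^ k := one_le_pow₀ (by linarith)
    rw [hu]
    nlinarith
  have hbd : u ^ q * eps a ^ (k * (p / H) + q) ≤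
      u ^ (H ^ S.card) * eps a ^ (k * (p / H) + H ^ S.card) :=
    mul_le_mul (pow_le_pow_right₀ hu1 hq2) (pow_le_pow_right₀ he1.le (by omega)) (by positivity)
      (by positivity)
  have h1 : (d : ℤ) ≤ |QuadraticAlgebra.norm M.det| :=
    Int.le_of_dvd (abs_pos.2 hn0) ((dvd_abs _ _).2 hnorm)
  have h2 : ((d : ℤ) : ℝ) ≤ ((|QuadraticAlgebra.norm M.det| : ℤ) : ℝ) := by exact_mod_cast h1
  rw [Int.cast_abs, norm_eq, abs_mul] at h2
  calc (d : ℝ) = ((d : ℤ) : ℝ) := by simp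
    _ ≤ |s₁ a M.det| * |s₂ a M.det| := h2
    _ ≤ (u ^ q * eps a ^ (k * (p / H) + q)) * (u ^ q * eps a ^ (k * (p / H) + q)) :=
        mul_le_mul b1 b2 (abs_nonneg _) (by positivity)
    _ = (u ^ q * eps a ^ (k * (p / H) + q)) ^ 2 := by ring
    _ ≤ _ := pow_le_pow_left₀ (by positivity) hbd 2

end

end Pool.Agent.K6.H54.RZ
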