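import Pool.Agent.K6.H54.RZ.Main

/-!
# Zeros of forms modulo divisors of `U_p`
-/

set_option autoImplicit false

namespace Pool.Agent.K6.H54.RZ

open Finset Polynomial Pool.Agent.N449.SQ Pool.Agent.K6.H50.SMP

/-- the complex embedding -/
theorem exists_complex (a : ℤ) {q : ℕ} (hq : 0 < q) {f : (K a)[X]} {c : K a}
    (hf : f = X ^ q - C c) : ∃ _ψ : AdjoinRoot f →+* ℂ, True := by
  obtain ⟨z, hz⟩ := IsAlgClosed.exists_pow_nat_eq ((t₁ a c : ℝ) : ℂ) hq
  refine ⟨AdjoinRoot.lift (Complex.ofRealHom.comp (t₁ a)) z ?_, trivial⟩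
  rw [hf, eval₂_sub, eval₂_pow, eval₂_X, eval₂_C, hz]
  simp

/-- From the ring to the integers. -/
theorem dvd_intU {a : ℤ} {p : ℕ} (hpo : Odd p) {l : ℕ} {M : ℤ}
    (h : (1 - (((-1 : ℤˣ) : ℤ) : R a) * w a (-((2 * p : ℕ) : ℤ))) ∣ dl a ^ l * (M : R a)) :
    U a p ∣ (a ^ 2 + 4) ^ l * M := by
  obtain ⟨z, hz⟩ := h
  have h4 : (((-1 : ℤˣ) : ℤ) : R a) = -1 := by simp
  rw [h4] at hz
  have h5 : w a p * w a (-p) = 1 := by rw [← w_add, add_neg_cancel, w_zero]
  have hsw : star (w a p) = -w a (-p) := by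
    rw [star_w, hpo.neg_one_pow]; ring
  have hUp : w a p + w a (-p) = ((U a p : ℤ) : R a) * dl a := by
    have := sub_star' a (w a p)
    rw [(w_re_im a p).1, hsw, sub_neg_eq_add] at this
    exact this
  have h2 : w a (-((2 * p : ℕ) : ℤ)) = w a (-p) * w a (-p) := by
    rw [← w_add]
    congr 1
    push_cast
    ring
  rw [h2] at hz
  have h7 : dl a ^ l * dl a ^ l = (((a ^ 2 + 4) ^ l : ℤ) : R a) := by
    rw [← mul_pow, dl_sq]
    push_cast
    rfl
  have h3 : (((a ^ 2 + 4) ^ l * M : ℤ) : R a) =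
      ((U a p : ℤ) : R a) * (dl a * (w a (-p) * z) * dl a ^ l) := by
    have h8 : (((a ^ 2 + 4) ^ l * M : ℤ) : R a) = dl a ^ l * dl a ^ l * (M : R a) := by
      rw [h7]
      push_cast
      rfl
    rw [h8]
    linear_combination (dl a ^ l) * hz + (w a (-p) * z * dl a ^ l) * hUp -
      (z * dl a ^ l) * h5
  have h8 := congrArg QuadraticAlgebra.re h3
  rw [QuadraticAlgebra.re_mul] at h8
  simp only [QuadraticAlgebra.re_intCast, QuadraticAlgebra.im_intCast,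
    Int.cast_id, zero_mul, mul_zero, add_zero] at h8
  exact ⟨_, h8⟩

section

variable {a : ℤ} (ha : 1 ≤ a) (hV : ∀ (T : ℤ) (r : ℕ), 1 ≤ T → 2 ≤ r → Odd r → V T r ≠ a)
  {p : ℕ} (hp : p.Prime) (hp2 : p ≠ 2) (S : Finset ℕ) {m : ℕ} (β : Fin m → ℕ → R a)

include ha hV hp hp2

/-- **Zeros of forms.** -/
theorem zerosU {k : ℕ} (P : MvPolynomial (Fin m) ℤ) (hP : P.IsHomogeneous k) {J : Type*}
    (L : J → MvPolynomial (Fin m) ℤ) (l : J → ℕ) (hL : ∀ j, (L j).IsHomogeneous (l j))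
    (hcplx : ∀ z : Fin m → ℂ, MvPolynomial.eval₂ (Int.castRingHom ℂ) z P = 0 →
      ∃ j, MvPolynomial.eval₂ (Int.castRingHom ℂ) z (L j) = 0)
    {H d : ℕ} (hH : 1 ≤ H) (hHp : H ^ S.card < p) (hd1 : (d : ℤ) ∣ U a p)
    (hd2 : (d : ℤ) ∣ MvPolynomial.eval (fun j => ∑ i ∈ S, (β j i * w a i).im) P)
    {A : ℝ} (hA1 : 1 ≤ A) (hA : ∀ j, ∑ i ∈ S, hs a (β j i) ≤ A) :
    (∃ j, U a p ∣ (a ^ 2 + 4) ^ (l j) *
      MvPolynomial.eval (fun j => ∑ i ∈ S, (β j i * w a i).im) (L j)) ∨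
    (d : ℝ) ≤ ((len P : ℝ) * (2 * A) ^ k) ^ (H ^ S.card) *
      eps a ^ (k * (2 * p / H) + H ^ S.card) := by
  classical
  have hdom := isDomain ha
  have hK := fact ha
  have hpo : Odd p := hp.odd_of_ne_two hp2
  have he1 := one_lt_eps ha
  set W : Fin m → ℤ := fun j => ∑ i ∈ S, (β j i * w a i).im with hW
  have hsw : star (w a p) = -w a (-p) := by
    rw [star_w, hpo.neg_one_pow]; ring
  have h5 : w a p * w a (-p) = 1 := by rw [← w_add, add_neg_cancel, w_zero]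
  have hUp : w a p + w a (-p) = ((U a p : ℤ) : R a) * dl a := by
    have := sub_star' a (w a p)
    rw [(w_re_im a p).1, hsw, sub_neg_eq_add] at this
    exact this
  obtain ⟨q, α, hq1, hq2, hα⟩ := dir (N := 2 * p) (H := H) (by have := hp.pos; omega) hH S
  have hq0 : 0 < q := hq1
  obtain ⟨f, hf⟩ : ∃ f : (K a)[X],
    f = X ^ q - C (inc a ((((-1 : ℤˣ) : ℤ) : R a) * w a (-((2 * p : ℕ) : ℤ)))) := ⟨_, rfl⟩
  have hirr : Irreducible f := by
    rw [hf]
    exact irrU ha hV hp hp2 hq0 (by omega)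
  have hfact : Fact (Irreducible f) := ⟨hirr⟩
  obtain ⟨θ, hθ⟩ : ∃ θ : (AdjoinRoot f)ˣ, (θ : AdjoinRoot f) = AdjoinRoot.root f :=
    ⟨Units.mk0 _ (root_ne hf ha hq0 hirr), rfl⟩
  obtain ⟨v, hv⟩ : ∃ v : Fin m → AdjoinRoot f, ∀ j,
      v j = ∑ κ ∈ S ×ˢ (Finset.univ : Finset Bool), fi a f (bb a (β j) κ) *
        ((Units.map (fi a f : R a →* AdjoinRoot f) (wu a) ^ xx κ * θ ^ α κ :
          (AdjoinRoot f)ˣ) : AdjoinRoot f) := ⟨_, fun _ => rfl⟩
  have hrep : ∀ j, Rep a (fi a f) θ (2 * p) q (2 * p / H) (2 * A) (v j)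
      ((W j : R a) * dl a) := by
    intro j
    refine ⟨(S ×ˢ (Finset.univ : Finset Bool) : Finset (ℕ × Bool)), inferInstance,
      fun κ => bb a (β j) κ, fun κ => xx κ, fun κ => α κ, fun κ => hα κ κ.2, ?_, ?_, ?_, ?_⟩
    · rw [Finset.sum_coe_sort (S ×ˢ (Finset.univ : Finset Bool))
        (fun κ => |s₁ a (bb a (β j) κ)|)]
      refine (sum_hs a S (β j) (s₁ a) fun z => le_max_left _ _).trans ?_
      have := hA j
      linarith
    · rw [Finset.sum_coe_sort (S ×ˢ (Finset.univ : Finset Bool))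
        (fun κ => |s₂ a (bb a (β j) κ)|)]
      refine (sum_hs a S (β j) (s₂ a) fun z => le_max_right _ _).trans ?_
      have := hA j
      linarith
    · rw [hv j]
      exact Finset.sum_coe_sort (S ×ˢ (Finset.univ : Finset Bool))
        (fun κ => fi a f (bb a (β j) κ) *
        ((Units.map (fi a f : R a →* AdjoinRoot f) (wu a) ^ xx κ * θ ^ α κ :
          (AdjoinRoot f)ˣ) : AdjoinRoot f))
    · rw [Finset.sum_coe_sort (S ×ˢ (Finset.univ : Finset Bool))
        (fun κ => bb a (β j) κ * w a (xx κ))]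
      exact sum_bb a S (β j)
  obtain ⟨ι, _, b, x, α', g0, g1, g2, g3, g4⟩ := Rep.form hrep P hP
  rw [aeval_hom W (dl a) P hP] at g4
  by_cases hdet : (mat a (2 * p) q (-1) Finset.univ b x α').det = 0
  · left
    have h0 := ev_of_det hf ha hq0 hirr θ hθ hdet
    rw [g3] at h0
    obtain ⟨ψ, -⟩ := exists_complex a hq0 hf
    have hψ : ∀ Q : MvPolynomial (Fin m) ℤ,
        MvPolynomial.eval₂ (Int.castRingHom ℂ) (fun j => ψ (v j)) Q =
        ψ (MvPolynomial.eval₂ (Int.castRingHom (AdjoinRoot f)) v Q) := by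
      intro Q
      rw [MvPolynomial.eval₂_comp_left]
      congr 1
      exact Subsingleton.elim _ _
    obtain ⟨j, hj⟩ := hcplx (fun j => ψ (v j)) (by rw [hψ, h0, map_zero])
    rw [hψ, map_eq_zero ψ] at hj
    obtain ⟨ι', _, b', x', α'', -, -, -, k3, k4⟩ := Rep.form hrep (L j) (hL j)
    rw [hj] at k3
    rw [aeval_hom W (dl a) (L j) (hL j)] at k4
    refine ⟨j, dvd_intU hpo ?_⟩
    rw [← k4]
    exact dvd_of_ev hf hq0 θ hθ k3
  right
  set M := mat a (2 * p) q (-1) Finset.univ b x α' with hM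
  have hmem : M.det ∈ Ideal.span {((d : ℤ) : R a)} := by
    refine det_mem hq0 _ ?_ ?_
    · rw [Ideal.mem_span_singleton]
      have h1 : w a ((2 * p : ℕ) : ℤ) - (((-1 : ℤˣ) : ℤ) : R a) = ((U a p : ℤ) : R a) *
          (dl a * w a p) := by
        have h6 : w a ((2 * p : ℕ) : ℤ) = w a p * w a p := by
          rw [← w_add]
          congr 1
          push_cast
          ring
        have h4 : (((-1 : ℤˣ) : ℤ) : R a) = -1 := by simp
        rw [h4, h6]
        linear_combination (w a p) * hUp - h5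
      rw [h1]
      exact Dvd.dvd.mul_right (by exact_mod_cast (Int.cast_dvd_cast (α := R a) _ _ hd1)) _
    · rw [g4, Ideal.mem_span_singleton]
      exact Dvd.dvd.mul_left (by exact_mod_cast (Int.cast_dvd_cast (α := R a) _ _ hd2)) _
  obtain ⟨z, hz⟩ := Ideal.mem_span_singleton.1 hmem
  have hz0 : z ≠ 0 := by
    rintro rfl
    exact hdet (by rw [hz, mul_zero])
  have hz1 := one_le_abs ha hz0
  set u : ℝ := (len P : ℝ) * (2 * A) ^ k with hu
  have b1 := det_le ha (σ := -1) (b := b) (I := Finset.univ) (α := α') hq0 (fun k _ => g0 k)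
    (s := s₁ a) (fun y => abs_s₁_w a y ha) g1
  have b2 := det_le ha (σ := -1) (b := b) (I := Finset.univ) (α := α') hq0 (fun k _ => g0 k)
    (s := s₂ a) (fun y => abs_s₂_w' a y ha) g2
  rw [← hM] at b1 b2
  have hlen0 : 0 ≤ len P := Finset.sum_nonneg fun _ _ => abs_nonneg _
  have hlen : 1 ≤ len P := by
    by_contra hcon
    have h1 : len P = 0 := by omega
    rw [hu, h1, Int.cast_zero, zero_mul, zero_pow hq0.ne', zero_mul] at b1
    have h2 : s₁ a M.det = 0 := abs_nonpos_iff.1 b1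
    exact hdet (s₁_inj ha (by rw [h2, map_zero]))
  have hu1 : 1 ≤ u := by
    have h1 : (1 : ℝ) ≤ len P := by exact_mod_cast hlen
    have h2 : (1 : ℝ) ≤ (2 * A) ^ k := one_le_pow₀ (by linarith)
    rw [hu]
    nlinarith
  rw [hz, map_mul, abs_mul, map_intCast] at b1 b2
  have hbd : u ^ q * eps a ^ (k * (2 * p / H) + q) ≤
      u ^ (H ^ S.card) * eps a ^ (k * (2 * p / H) + H ^ S.card) :=
    mul_le_mul (pow_le_pow_right₀ hu1 hq2) (pow_le_pow_right₀ he1.le (by omega)) (by positivity)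
      (by positivity)
  refine le_trans ?_ hbd
  set B := u ^ q * eps a ^ (k * (2 * p / H) + q) with hB
  have hd0 : (0 : ℝ) ≤ |(((d : ℤ) : ℝ))| := abs_nonneg _
  have hdd : |(((d : ℤ) : ℝ))| = d := by simp
  rw [hdd] at b1 b2
  have hB0 : 0 ≤ B := by positivity
  have h1 : (d : ℝ) ^ 2 ≤ B ^ 2 := by
    have hd' : (0 : ℝ) ≤ d := Nat.cast_nonneg d
    calc (d : ℝ) ^ 2 = (d : ℝ) * d * 1 := by ring
      _ ≤ (d : ℝ) * d * (|s₁ a z| * |s₂ a z|) := mul_le_mul_of_nonneg_left hz1 (by positivity)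
      _ = (d * |s₁ a z|) * (d * |s₂ a z|) := by ring
      _ ≤ B * B := mul_le_mul b1 b2 (by positivity) hB0
      _ = B ^ 2 := by ring
  exact (pow_le_pow_iff_left₀ (Nat.cast_nonneg d) hB0 two_ne_zero).1 h1

end

end Pool.Agent.K6.H54.RZ
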