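import Mathlib

/-!
# The numerical bound
-/

set_option autoImplicit false

namespace Pool.Agent.K6.H54.RZ

theorem num {n s k : ℕ} {δ : ℝ} (hδ : 0 < δ) (hδ1 : δ ≤ 1) (hn3 : 3 ≤ n) (hs : 1 ≤ s)
    (hk : 1 ≤ k) {d : ℕ} (hdδ : (1 + √2) ^ (δ * n) ≤ (d : ℝ))
    (key : ∀ H : ℕ, 1 ≤ H → k ≤ H → H ^ s < n →
      (d : ℝ) ≤ (((8 * s * (n : ℝ) ^ 2) ^ k) ^ (H ^ s) * (1 + √2) ^ (k * (n / H) + H ^ s)) ^ 2) :
    Real.log n ≤ 4 * s * Real.log (15 * k / δ) := by
  have hnR : (3 : ℝ) ≤ n := by exact_mod_cast hn3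
  have hsR : (1 : ℝ) ≤ s := by exact_mod_cast hs
  have hkR : (1 : ℝ) ≤ k := by exact_mod_cast hk
  have hkδ : 1 ≤ (k : ℝ) / δ := by
    rw [le_div_iff₀ hδ]
    linarith
  have e15 : 15 * (k : ℝ) / δ = 15 * (k / δ) := by ring
  obtain ⟨t, ht⟩ : ∃ t : ℝ, t = k / δ := ⟨_, rfl⟩
  have ht1 : 1 ≤ t := by rw [ht]; exact hkδ
  have hδt : δ * t = k := by
    rw [ht]
    field_simp
  rw [e15, ← ht]
  have hl15 : 1 ≤ Real.log (15 * t) := by
    rw [Real.le_log_iff_exp_le (by positivity)]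
    have h1 : Real.exp 1 < 3 := Real.exp_one_lt_d9.trans (by norm_num)
    linarith
  obtain ⟨H, hH⟩ : ∃ H, H = ⌈8 * t⌉₊ := ⟨_, rfl⟩
  have hH1 : 8 * t ≤ H := by rw [hH]; exact Nat.le_ceil _
  have hH2 : (H : ℝ) ≤ 9 * t := by
    have h1 : (H : ℝ) < 8 * t + 1 := by rw [hH]; exact Nat.ceil_lt_add_one (by positivity)
    linarith
  have hH0 : (0 : ℝ) < H := by linarith
  have hlH0 : 0 ≤ Real.log H := Real.log_nonneg (by linarith)
  have hlH : Real.log H ≤ Real.log (15 * t) := Real.log_le_log hH0 (by linarith)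
  -- trivial cases
  by_cases hsn : n ≤ s
  · have h1 : Real.log n ≤ n := (Real.log_le_sub_one_of_pos (by linarith)).trans (by linarith)
    have h2 : (n : ℝ) ≤ s := by exact_mod_cast hsn
    have h3 : (s : ℝ) * 1 ≤ s * Real.log (15 * t) :=
      mul_le_mul_of_nonneg_left hl15 (by linarith)
    linarith
  rw [not_le] at hsn
  by_cases hHn : n ≤ H ^ s
  · have h1 : Real.log n ≤ s * Real.log H := by
      rw [← Real.log_pow]
      apply Real.log_le_log (by linarith)
      exact_mod_cast hHn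
    have h2 : (s : ℝ) * Real.log H ≤ s * Real.log (15 * t) :=
      mul_le_mul_of_nonneg_left hlH (by linarith)
    have h3 : 0 ≤ (s : ℝ) * Real.log (15 * t) := by positivity
    linarith
  rw [not_le] at hHn
  -- the bound for `d`
  have hHN : 1 ≤ H := by
    have : (1 : ℝ) ≤ H := by linarith
    exact_mod_cast this
  have hkH : k ≤ H := by
    have h1 : (k : ℝ) ≤ t := by
      rw [← hδt]
      nlinarith
    have h2 : (k : ℝ) ≤ H := by linarith
    exact_mod_cast h2
  have hb := key H hHN hkH hHn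
  set ε : ℝ := 1 + √2 with hε
  have hsq : (1.4 : ℝ) < √2 := by
    rw [Real.lt_sqrt (by norm_num)]
    norm_num
  have hsq' : √2 < (1.5 : ℝ) := by
    rw [Real.sqrt_lt' (by norm_num)]
    norm_num
  have hε1 : 1 < ε := by linarith
  have hε0 : 0 < ε := by linarith
  have hlε : 3 / 4 ≤ Real.log ε := by
    rw [Real.le_log_iff_exp_le hε0]
    have h2 : Real.exp (3 / 4) ^ 4 ≤ ε ^ 4 := by
      rw [← Real.exp_nat_mul]
      have h3 : ((4 : ℕ) : ℝ) * (3 / 4) = ((3 : ℕ) : ℝ) * 1 := by norm_num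
      rw [h3, Real.exp_nat_mul]
      have h4 : Real.exp 1 ^ 3 ≤ (2.72 : ℝ) ^ 3 :=
        pow_le_pow_left₀ (Real.exp_pos 1).le (Real.exp_one_lt_d9.le.trans (by norm_num)) 3
      have h5 : (2.4 : ℝ) ^ 4 ≤ ε ^ 4 := pow_le_pow_left₀ (by norm_num) (by linarith) 4
      have h6 : (2.72 : ℝ) ^ 3 ≤ 2.4 ^ 4 := by norm_num
      linarith
    exact (pow_le_pow_iff_left₀ (Real.exp_pos _).le hε0.le (by norm_num)).1 h2
  have hlε1 : Real.log ε ≤ 1 := by
    rw [Real.log_le_iff_le_exp hε0]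
    have := Real.exp_one_gt_d9
    linarith
  obtain ⟨G, hG⟩ : ∃ G : ℝ, G = ((H ^ s : ℕ) : ℝ) := ⟨_, rfl⟩
  have hG0 : 0 < G := by
    rw [hG]
    exact_mod_cast pow_pos hHN s
  obtain ⟨A, hA⟩ : ∃ A : ℝ, A = 8 * s * (n : ℝ) ^ 2 := ⟨_, rfl⟩
  have hA1 : 1 ≤ A := by
    rw [hA]
    have : (1 : ℝ) ≤ (n : ℝ) ^ 2 := one_le_pow₀ (by linarith)
    nlinarith
  have hlA0 : 0 ≤ Real.log A := Real.log_nonneg hA1
  have hnH : ((k * (n / H) : ℕ) : ℝ) ≤ δ * n / 8 := by
    have h1 : ((n / H : ℕ) : ℝ) ≤ n / H := Nat.cast_div_le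
    have h2 : (k : ℝ) * (n / H) ≤ δ * n / 8 := by
      rw [← mul_div_assoc, div_le_iff₀ hH0]
      have h3 : δ * (8 * t) ≤ δ * H := mul_le_mul_of_nonneg_left hH1 hδ.le
      have h4 : (n : ℝ) * (δ * (8 * t)) ≤ n * (δ * H) :=
        mul_le_mul_of_nonneg_left h3 (by linarith)
      have h5 : (n : ℝ) * (δ * (8 * t)) = 8 * (k * n) := by
        rw [← hδt]
        ring
      linarith
    push_cast
    exact (mul_le_mul_of_nonneg_left h1 (by linarith)).trans h2
  have hld : δ * n * Real.log ε ≤ Real.log d := by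
    rw [← Real.log_rpow hε0]
    exact Real.log_le_log (by positivity) hdδ
  have hd0 : (0 : ℝ) < d := lt_of_lt_of_le (by positivity) hdδ
  have hlog : Real.log d ≤ 2 * G * (k * Real.log A) + (δ * n / 4 + 2 * G) * Real.log ε := by
    have hlε0 : 0 ≤ Real.log ε := by linarith
    have h1 := Real.log_le_log hd0 hb
    rw [← hA, Real.log_pow, Real.log_mul (by positivity) (by positivity), Real.log_pow,
      Real.log_pow, Real.log_pow] at h1
    rw [Nat.cast_add, ← hG] at h1
    have h3 := mul_le_mul_of_nonneg_right hnH hlε0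
    push_cast at h1 h3
    linarith
  -- `n ≪ G k √n`
  have hsqn : 1 ≤ √(n : ℝ) := by
    rw [Real.one_le_sqrt]
    linarith
  have hsqn2 : √(n : ℝ) * √(n : ℝ) = n := Real.mul_self_sqrt (by linarith)
  have hlogn : Real.log n ≤ 2 * √(n : ℝ) - 2 := by
    have h1 : Real.log n = 2 * Real.log √(n : ℝ) := by
      conv_lhs => rw [← hsqn2]
      rw [Real.log_mul (by positivity) (by positivity)]
      ring
    have h2 : Real.log √(n : ℝ) ≤ √(n : ℝ) - 1 := Real.log_le_sub_one_of_pos (by linarith)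
    linarith
  have hlogA : Real.log A ≤ 3 + 3 * Real.log n := by
    have h1 : A ≤ 8 * (n : ℝ) ^ 3 := by
      rw [hA]
      have h2 : (s : ℝ) ≤ n := by exact_mod_cast hsn.le
      have h3 : (s : ℝ) * (n : ℝ) ^ 2 ≤ n * (n : ℝ) ^ 2 :=
        mul_le_mul_of_nonneg_right h2 (by positivity)
      linarith
    have h2 : Real.log A ≤ Real.log (8 * (n : ℝ) ^ 3) := Real.log_le_log (by linarith) h1
    rw [Real.log_mul (by norm_num) (by positivity), Real.log_pow] at h2
    have h3 : Real.log 8 ≤ 3 := by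
      have h4 : (8 : ℝ) = 2 ^ 3 := by norm_num
      rw [h4, Real.log_pow]
      have := Real.log_two_lt_d9
      push_cast
      linarith
    push_cast at h2
    linarith
  have hmain : δ * √(n : ℝ) ≤ 22 * (G * k) := by
    have h1 : 3 / 4 * (δ * n) * Real.log ε ≤ 2 * G * (k * Real.log A + Real.log ε) := by
      linear_combination hld + hlog
    have h2 : k * Real.log A + Real.log ε ≤ k * (6 * √(n : ℝ)) := by
      have h3 : (k : ℝ) * Real.log A ≤ k * (6 * √(n : ℝ) - 3) :=
        mul_le_mul_of_nonneg_left (by linarith) (by linarith)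
      linarith
    have h3 : 9 / 16 * (δ * n) ≤ 2 * G * (k * (6 * √(n : ℝ))) := by
      have h4 : 2 * G * (k * Real.log A + Real.log ε) ≤ 2 * G * (k * (6 * √(n : ℝ))) :=
        mul_le_mul_of_nonneg_left h2 (by positivity)
      have h5 : 3 / 4 * (δ * n) * (3 / 4) ≤ 3 / 4 * (δ * n) * Real.log ε :=
        mul_le_mul_of_nonneg_left hlε (by positivity)
      linarith
    have h4 : (δ * √(n : ℝ)) * √(n : ℝ) ≤ (22 * (G * k)) * √(n : ℝ) := by
      have h5 : (δ * √(n : ℝ)) * √(n : ℝ) = δ * n := by rw [mul_assoc, hsqn2]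
      rw [h5]
      have h6 : 0 ≤ G * k * √(n : ℝ) := by positivity
      linarith
    exact le_of_mul_le_mul_right h4 (by linarith)
  -- the conclusion
  have hmain' : √(n : ℝ) ≤ 22 * t * G := by
    have h1 : δ * √(n : ℝ) ≤ δ * (22 * t * G) := by
      have h2 : δ * (22 * t * G) = 22 * (G * k) := by
        rw [← hδt]
        ring
      rw [h2]
      exact hmain
    exact le_of_mul_le_mul_left h1 hδ
  have h1 : Real.log (√(n : ℝ)) ≤ Real.log (22 * t * G) := Real.log_le_log (by positivity) hmain'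
  rw [Real.log_mul (by positivity) (by positivity), Real.log_sqrt (by linarith)] at h1
  have h2 : Real.log G = s * Real.log H := by
    rw [hG]
    push_cast
    rw [Real.log_pow]
  rw [h2] at h1
  have h3 : Real.log H ≤ Real.log (9 * t) := Real.log_le_log hH0 hH2
  have h4 : Real.log (22 * t) + Real.log (9 * t) ≤ 2 * Real.log (15 * t) := by
    rw [← Real.log_mul (by positivity) (by positivity)]
    have h7 : 2 * Real.log (15 * t) = Real.log ((15 * t) ^ 2) := by
      rw [Real.log_pow]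
      norm_num
    rw [h7]
    apply Real.log_le_log (by positivity)
    have h0 := sq_nonneg t
    linear_combination 27 * h0
  have h5 : 0 ≤ Real.log (22 * t) := Real.log_nonneg (by linarith)
  have h8 : Real.log n ≤ 2 * s * Real.log (22 * t) + 2 * s * Real.log H := by
    have h9 := mul_le_mul_of_nonneg_right hsR h5
    linarith
  have h9 : 2 * (s : ℝ) * Real.log (22 * t) + 2 * s * Real.log H ≤
      2 * s * (2 * Real.log (15 * t)) := by
    have h10 : Real.log (22 * t) + Real.log H ≤ 2 * Real.log (15 * t) := by linarith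
    calc 2 * (s : ℝ) * Real.log (22 * t) + 2 * s * Real.log H =
        2 * s * (Real.log (22 * t) + Real.log H) := by ring
      _ ≤ _ := mul_le_mul_of_nonneg_left h10 (by linarith)
  linarith

end Pool.Agent.K6.H54.RZ
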