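import Pool.Agent.K6.H54.RZ.MainU
import Pool.Agent.K6.H54.RZ.Num

/-!
# The case of Pell numbers
-/

set_option autoImplicit false

namespace Pool.Agent.K6.H54.RZ

open Finset Pool.Agent.N449.SQ Pool.Agent.K6.H50.SMP

theorem h2e : eps 2 = 1 + √2 := by
  have : √(((2 : ℤ) : ℝ) ^ 2 + 4) = 2 * √2 := by
    rw [show (((2 : ℤ) : ℝ) ^ 2 + 4) = 2 ^ 2 * 2 by push_cast; norm_num,
      Real.sqrt_mul (by positivity), Real.sqrt_sq (by norm_num)]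
  unfold eps
  rw [this]
  push_cast
  ring

theorem hV2 : ∀ (b : ℤ) (r : ℕ), 1 ≤ b → 2 ≤ r → Odd r → V b r ≠ 2 := by
  intro b r hb hr _ h1
  have := three_le_V b hb r hr
  omega

theorem pell (n : ℕ) : ((1 : ℝ) + √2) ^ n = (V 2 n : ℝ) / 2 + U 2 n * √2 := by
  have h2 : √(2 : ℝ) ^ 2 = 2 := Real.sq_sqrt (by norm_num)
  have h : ((1 : ℝ) + √2) ^ n = (V 2 n : ℝ) / 2 + U 2 n * √2 ∧
      ((1 : ℝ) + √2) ^ (n + 1) = (V 2 (n + 1) : ℝ) / 2 + U 2 (n + 1) * √2 := by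
    induction n with
    | zero => simp [V, U]
    | succ n ih =>
      refine ⟨ih.2, ?_⟩
      have e : ((1 : ℝ) + √2) ^ (n + 1 + 1) = 2 * (1 + √2) ^ (n + 1) + (1 + √2) ^ n := by
        have : ((1 : ℝ) + √2) ^ 2 = 2 * (1 + √2) + 1 := by linear_combination h2
        rw [show n + 1 + 1 = n + 2 from rfl, pow_add, this]
        ring
      rw [e, ih.1, ih.2, V, U]
      push_cast
      ring
  exact h.1

theorem ident {n : ℕ} {x y : ℤ} (h : (x : ℝ) + y * √2 = (1 + √2) ^ n) :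
    y = U 2 n ∧ 2 * x = V 2 n := by
  have hirr : Irrational √2 := irrational_sqrt_two
  rw [pell] at h
  have hyU : y = U 2 n := by
    by_contra hne
    have h1 : ((y : ℝ) - U 2 n) * √2 = ((V 2 n : ℝ) / 2 - x) := by linarith
    have h2 : ((y : ℝ) - U 2 n) ≠ 0 := by
      intro h0
      apply hne
      have : (y : ℝ) = U 2 n := by linarith
      exact_mod_cast this
    apply hirr
    refine ⟨((V 2 n : ℚ) / 2 - x) / ((y : ℚ) - U 2 n), ?_⟩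
    push_cast
    rw [← h1]
    field_simp
  refine ⟨hyU, ?_⟩
  rw [hyU] at h
  have : (2 : ℝ) * x = V 2 n := by linarith
  exact_mod_cast this

theorem pell' (n : ℕ) : ((1 : ℝ) - √2) ^ n = (V 2 n : ℝ) / 2 - U 2 n * √2 := by
  have h2 : √(2 : ℝ) ^ 2 = 2 := Real.sq_sqrt (by norm_num)
  have h : ((1 : ℝ) - √2) ^ n = (V 2 n : ℝ) / 2 - U 2 n * √2 ∧
      ((1 : ℝ) - √2) ^ (n + 1) = (V 2 (n + 1) : ℝ) / 2 - U 2 (n + 1) * √2 := by
    induction n with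
    | zero => simp [V, U]
    | succ n ih =>
      refine ⟨ih.2, ?_⟩
      have e : ((1 : ℝ) - √2) ^ (n + 1 + 1) = 2 * (1 - √2) ^ (n + 1) + (1 - √2) ^ n := by
        have : ((1 : ℝ) - √2) ^ 2 = 2 * (1 - √2) + 1 := by linear_combination h2
        rw [show n + 1 + 1 = n + 2 from rfl, pow_add, this]
        ring
      rw [e, ih.1, ih.2, V, U]
      push_cast
      ring
  exact h.1

/-- The equation. -/
theorem eqn {n : ℕ} (hodd : Odd n) {x y : ℤ} (h : (x : ℝ) + y * √2 = (1 + √2) ^ n) :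
    x ^ 2 - 2 * y ^ 2 = -1 := by
  obtain ⟨hyU, hxV⟩ := ident h
  have h' : (x : ℝ) - y * √2 = (1 - √2) ^ n := by
    rw [pell', hyU]
    have : (2 : ℝ) * x = V 2 n := by exact_mod_cast hxV
    linarith
  have h2 : √(2 : ℝ) ^ 2 = 2 := Real.sq_sqrt (by norm_num)
  have h3 : ((x : ℝ) + y * √2) * (x - y * √2) = -1 := by
    rw [h, h', ← mul_pow, show (1 + √2) * (1 - √2) = -1 by linear_combination (-1 : ℝ) * h2,
      hodd.neg_one_pow]
  have h4 : (x : ℝ) ^ 2 - 2 * y ^ 2 = -1 := by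
    linear_combination h3 + (y : ℝ) ^ 2 * h2
  exact_mod_cast h4

theorem x_odd {n : ℕ} (hodd : Odd n) {x y : ℤ} (h : (x : ℝ) + y * √2 = (1 + √2) ^ n) :
    Odd x := by
  by_contra hcon
  rw [Int.not_odd_iff_even] at hcon
  obtain ⟨c, hc⟩ := hcon
  have := eqn hodd h
  rw [hc] at this
  have h1 : (c + c) ^ 2 = 4 * c ^ 2 := by ring
  omega

theorem y_odd {n : ℕ} (hodd : Odd n) {x y : ℤ} (h : (x : ℝ) + y * √2 = (1 + √2) ^ n) :
    Odd y := by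
  by_contra hcon
  rw [Int.not_odd_iff_even] at hcon
  obtain ⟨c, hc⟩ := hcon
  have h1 := eqn hodd h
  obtain ⟨e, he⟩ := x_odd hodd h
  rw [hc, he] at h1
  have h2 : (2 * e + 1) ^ 2 = 4 * (e ^ 2 + e) + 1 := by ring
  have h3 : (c + c) ^ 2 = 4 * c ^ 2 := by ring
  omega

theorem dvd_x {n : ℕ} (hodd : Odd n) {x y : ℤ} (h : (x : ℝ) + y * √2 = (1 + √2) ^ n) {l : ℕ}
    {M : ℤ} (hM : V 2 n ∣ 2 * (2 ^ 2 + 4) ^ l * M) : x ∣ M := by
  have h1 : x ∣ 2 * (2 ^ 2 + 4) ^ l * M := by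
    refine dvd_trans ?_ hM
    rw [← (ident h).2]
    exact Dvd.intro_left 2 rfl
  have h2 : IsCoprime x 2 := (Int.isCoprime_two_right).2 (x_odd hodd h)
  have h3 : IsCoprime x (2 * (2 ^ 2 + 4) ^ l) := by
    have h4 : (2 : ℤ) * (2 ^ 2 + 4) ^ l = 2 ^ (3 * l + 1) := by
      rw [show (2 : ℤ) ^ 2 + 4 = 2 ^ 3 by norm_num, ← pow_mul, ← pow_succ']
    rw [h4]
    exact h2.pow_right
  exact h3.dvd_of_dvd_mul_left h1

theorem dvd_y {n : ℕ} (hodd : Odd n) {x y : ℤ} (h : (x : ℝ) + y * √2 = (1 + √2) ^ n) {l : ℕ}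
    {M : ℤ} (hM : U 2 n ∣ (2 ^ 2 + 4) ^ l * M) : y ∣ M := by
  rw [← (ident h).1] at hM
  have h2 : IsCoprime y 2 := (Int.isCoprime_two_right).2 (y_odd hodd h)
  have h3 : IsCoprime y ((2 ^ 2 + 4) ^ l) := by
    have h4 : ((2 : ℤ) ^ 2 + 4) ^ l = 2 ^ (3 * l) := by
      rw [show (2 : ℤ) ^ 2 + 4 = 2 ^ 3 by norm_num, ← pow_mul]
    rw [h4]
    exact h2.pow_right
  exact h3.dvd_of_dvd_mul_left hM

/-- The value of the sum. -/
def val (S : Finset ℕ) (u u' : ℕ → ℤ) : ℤ := ∑ i ∈ S, (u i * U 2 i + u' i * U 2 (i + 1))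

theorem val_eq (S : Finset ℕ) (u u' : ℕ → ℤ) :
    val S u u' = ∑ i ∈ S, ((⟨u i, u' i⟩ : R 2) * w 2 i).im := by
  refine Finset.sum_congr rfl fun i _ => ?_
  rw [mul_w_im]

theorem hs_bound {n : ℕ} (S : Finset ℕ) (u u' : ℕ → ℤ)
    (hu : ∀ i ∈ S, |u i| ≤ n ∧ |u' i| ≤ n) :
    ∑ i ∈ S, hs 2 ⟨u i, u' i⟩ ≤ 4 * S.card * n := by
  calc ∑ i ∈ S, hs 2 ⟨u i, u' i⟩ ≤ ∑ i ∈ S, (4 * (n : ℝ)) := by
        refine Finset.sum_le_sum fun i hi => (hs_pair (by norm_num) _ _).trans ?_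
        obtain ⟨h1, h2⟩ := hu i hi
        have h3 : ((|u i| : ℤ) : ℝ) ≤ n := by exact_mod_cast h1
        have h4 : ((|u' i| : ℤ) : ℝ) ≤ n := by exact_mod_cast h2
        push_cast at h3 h4 ⊢
        linarith
    _ = 4 * S.card * n := by rw [Finset.sum_const, nsmul_eq_mul]; ring

end Pool.Agent.K6.H54.RZ
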