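import Pool.Agent.K6.H50.SMU.UFinal

/-!
# Sums of few terms `b ε ^ x θ ^ α`
-/

set_option autoImplicit false

namespace Pool.Agent.K6.H54.RZ

open Finset Pool.Agent.N449.SQ Pool.Agent.K6.H50.SMP

/-- `v` is a sum of terms `b ε ^ x θ ^ α` such that `q x` is near `α N`, the coefficients `b` have
conjugates of small sum, and `z` is the same sum with `θ = 1`. -/
def Rep {F : Type} [CommRing F] (a : ℤ) (φ : R a →+* F) (θ : Fˣ) (N q e : ℕ) (u : ℝ) (v : F)
    (z : R a) : Prop :=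
  ∃ (ι : Type) (_ : Fintype ι) (b : ι → R a) (x α : ι → ℤ),
    (∀ k, |(q : ℤ) * x k - α k * N| ≤ (e : ℤ)) ∧ (∑ k, |s₁ a (b k)| ≤ u) ∧
    (∑ k, |s₂ a (b k)| ≤ u) ∧
    (∑ k, φ (b k) * ((Units.map (φ : R a →* F) (wu a) ^ x k * θ ^ α k : Fˣ) : F) = v) ∧
    (∑ k, b k * w a (x k) = z)

variable {F : Type} [CommRing F] {a : ℤ} {φ : R a →+* F} {θ : Fˣ} {N q : ℕ}

theorem Rep.nonneg {e : ℕ} {u : ℝ} {v : F} {z : R a} (h : Rep a φ θ N q e u v z) : 0 ≤ u := by
  obtain ⟨ι, _, b, x, α, -, h1, -⟩ := h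
  exact (Finset.sum_nonneg fun _ _ => abs_nonneg _).trans h1

theorem Rep.mono {e e' : ℕ} {u u' : ℝ} {v : F} {z : R a} (h : Rep a φ θ N q e u v z)
    (he : e ≤ e') (hu : u ≤ u') : Rep a φ θ N q e' u' v z := by
  obtain ⟨ι, _, b, x, α, h0, h1, h2, h3, h4⟩ := h
  exact ⟨ι, _, b, x, α, fun k => (h0 k).trans (by exact_mod_cast he), h1.trans hu, h2.trans hu,
    h3, h4⟩

theorem Rep.zero (e : ℕ) : Rep a φ θ N q e 0 0 0 :=
  ⟨Empty, inferInstance, fun k => k.elim, fun k => k.elim, fun k => k.elim, fun k => k.elim,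
    by simp, by simp, by simp, by simp⟩

theorem Rep.add {e : ℕ} {u u' : ℝ} {v v' : F} {z z' : R a} (h : Rep a φ θ N q e u v z)
    (h' : Rep a φ θ N q e u' v' z') : Rep a φ θ N q e (u + u') (v + v') (z + z') := by
  obtain ⟨ι, _, b, x, α, h0, h1, h2, h3, h4⟩ := h
  obtain ⟨ι', _, b', x', α', h0', h1', h2', h3', h4'⟩ := h'
  refine ⟨ι ⊕ ι', inferInstance, Sum.elim b b', Sum.elim x x', Sum.elim α α', ?_, ?_, ?_, ?_, ?_⟩
  · rintro (k | k)
    · exact h0 k
    · exact h0' k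
  · rw [Fintype.sum_sum_type]
    exact add_le_add h1 h1'
  · rw [Fintype.sum_sum_type]
    exact add_le_add h2 h2'
  · rw [Fintype.sum_sum_type]
    simp only [Sum.elim_inl, Sum.elim_inr]
    rw [h3, h3']
  · rw [Fintype.sum_sum_type]
    simp only [Sum.elim_inl, Sum.elim_inr]
    rw [h4, h4']

theorem Rep.mul {e e' : ℕ} {u u' : ℝ} {v v' : F} {z z' : R a} (h : Rep a φ θ N q e u v z)
    (h' : Rep a φ θ N q e' u' v' z') : Rep a φ θ N q (e + e') (u * u') (v * v') (z * z') := by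
  have hu := h.nonneg
  obtain ⟨ι, _, b, x, α, h0, h1, h2, h3, h4⟩ := h
  obtain ⟨ι', _, b', x', α', h0', h1', h2', h3', h4'⟩ := h'
  refine ⟨ι × ι', inferInstance, fun k => b k.1 * b' k.2, fun k => x k.1 + x' k.2,
    fun k => α k.1 + α' k.2, ?_, ?_, ?_, ?_, ?_⟩
  · rintro ⟨k, l⟩
    have e1 : (q : ℤ) * (x k + x' l) - (α k + α' l) * N =
      ((q : ℤ) * x k - α k * N) + ((q : ℤ) * x' l - α' l * N) := by ring
    show |(q : ℤ) * (x k + x' l) - (α k + α' l) * N| ≤ _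
    rw [e1]
    refine (abs_add_le _ _).trans ?_
    push_cast
    exact add_le_add (h0 k) (h0' l)
  · have e1 : ∑ k : ι × ι', |s₁ a (b k.1 * b' k.2)| =
        (∑ k, |s₁ a (b k)|) * ∑ k, |s₁ a (b' k)| := by
      rw [Fintype.sum_mul_sum, Fintype.sum_prod_type]
      refine Finset.sum_congr rfl fun k _ => Finset.sum_congr rfl fun l _ => ?_
      rw [map_mul, abs_mul]
    rw [e1]
    exact mul_le_mul h1 h1' (Finset.sum_nonneg fun _ _ => abs_nonneg _) hu
  · have e1 : ∑ k : ι × ι', |s₂ a (b k.1 * b' k.2)| =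
        (∑ k, |s₂ a (b k)|) * ∑ k, |s₂ a (b' k)| := by
      rw [Fintype.sum_mul_sum, Fintype.sum_prod_type]
      refine Finset.sum_congr rfl fun k _ => Finset.sum_congr rfl fun l _ => ?_
      rw [map_mul, abs_mul]
    rw [e1]
    exact mul_le_mul h2 h2' (Finset.sum_nonneg fun _ _ => abs_nonneg _) hu
  · rw [← h3, ← h3', Fintype.sum_mul_sum, Fintype.sum_prod_type]
    refine Finset.sum_congr rfl fun k _ => Finset.sum_congr rfl fun l _ => ?_
    simp only []
    rw [map_mul, zpow_add, zpow_add]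
    push_cast
    ring
  · rw [← h4, ← h4', Fintype.sum_mul_sum, Fintype.sum_prod_type]
    refine Finset.sum_congr rfl fun k _ => Finset.sum_congr rfl fun l _ => ?_
    simp only []
    rw [w_add]
    ring

theorem Rep.const (c : ℤ) : Rep a φ θ N q 0 |(c : ℝ)| (c : F) (c : R a) := by
  refine ⟨Unit, inferInstance, fun _ => (c : R a), fun _ => 0, fun _ => 0, ?_, ?_, ?_, ?_, ?_⟩
  · intro _
    simp
  · simp
  · simp
  · simp
  · simp [w_zero]

theorem Rep.pow {e : ℕ} {u : ℝ} {v : F} {z : R a} (h : Rep a φ θ N q e u v z) (k : ℕ) :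
    Rep a φ θ N q (k * e) (u ^ k) (v ^ k) (z ^ k) := by
  induction k with
  | zero => simpa using Rep.const (a := a) (φ := φ) (θ := θ) (N := N) (q := q) 1
  | succ k ih =>
    have := ih.mul h
    rw [pow_succ, pow_succ, pow_succ, show (k + 1) * e = k * e + e by ring]
    exact this

theorem Rep.prod {m : ℕ} (T : Finset (Fin m)) {e : ℕ} {u : ℝ} {v : Fin m → F} {z : Fin m → R a}
    (h : ∀ j, Rep a φ θ N q e u (v j) (z j)) (μ : Fin m → ℕ) :
    Rep a φ θ N q ((∑ j ∈ T, μ j) * e) (u ^ (∑ j ∈ T, μ j)) (∏ j ∈ T, v j ^ μ j)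
      (∏ j ∈ T, z j ^ μ j) := by
  classical
  induction T using Finset.induction_on with
  | empty => simpa using Rep.const (a := a) (φ := φ) (θ := θ) (N := N) (q := q) 1
  | insert i T hi ih =>
    rw [Finset.sum_insert hi, Finset.prod_insert hi, Finset.prod_insert hi, pow_add, add_mul]
    exact ((h i).pow (μ i)).mul ih

theorem Rep.sum {κ : Type*} (T : Finset κ) {e : ℕ} {u : κ → ℝ} {v : κ → F} {z : κ → R a}
    (h : ∀ j ∈ T, Rep a φ θ N q e (u j) (v j) (z j)) :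
    Rep a φ θ N q e (∑ j ∈ T, u j) (∑ j ∈ T, v j) (∑ j ∈ T, z j) := by
  classical
  induction T using Finset.induction_on with
  | empty => simpa using Rep.zero (a := a) (φ := φ) (θ := θ) (N := N) (q := q) e
  | insert i T hi ih =>
    rw [Finset.sum_insert hi, Finset.sum_insert hi, Finset.sum_insert hi]
    exact (h i (Finset.mem_insert_self _ _)).add
      (ih fun j hj => h j (Finset.mem_insert_of_mem hj))

/-- The sum of the absolute values of the coefficients. -/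
noncomputable def len {m : ℕ} (P : MvPolynomial (Fin m) ℤ) : ℤ := ∑ μ ∈ P.support, |P.coeff μ|

/-- The value of a form. -/
theorem Rep.form {m k : ℕ} {e : ℕ} {u : ℝ} {v : Fin m → F} {z : Fin m → R a}
    (h : ∀ j, Rep a φ θ N q e u (v j) (z j)) (P : MvPolynomial (Fin m) ℤ)
    (hP : P.IsHomogeneous k) :
    Rep a φ θ N q (k * e) ((len P : ℝ) * u ^ k) (MvPolynomial.eval₂ (Int.castRingHom F) v P)
      (MvPolynomial.eval₂ (Int.castRingHom (R a)) z P) := by
  have h1 : MvPolynomial.eval₂ (Int.castRingHom F) v P =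
      ∑ μ ∈ P.support, ((P.coeff μ : ℤ) : F) * ∏ j, v j ^ μ j := by
    rw [MvPolynomial.eval₂_eq']
    rfl
  have h2 : MvPolynomial.eval₂ (Int.castRingHom (R a)) z P =
      ∑ μ ∈ P.support, ((P.coeff μ : ℤ) : R a) * ∏ j, z j ^ μ j := by
    rw [MvPolynomial.eval₂_eq']
    rfl
  have h3 : (len P : ℝ) * u ^ k = ∑ μ ∈ P.support, |((P.coeff μ : ℤ) : ℝ)| * u ^ k := by
    rw [len, ← Finset.sum_mul]
    push_cast
    rfl
  rw [h1, h2, h3]
  refine Rep.sum _ fun μ hμ => ?_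
  have hk : ∑ j, μ j = k := by
    have := hP (MvPolynomial.mem_support_iff.1 hμ)
    rw [← this, Finsupp.weight_apply, Finsupp.sum_fintype]
    · simp
    · simp
  have h4 := (Rep.const (a := a) (φ := φ) (θ := θ) (N := N) (q := q) (P.coeff μ)).mul
    (Rep.prod Finset.univ h μ)
  rw [hk, zero_add] at h4
  exact h4

end Pool.Agent.K6.H54.RZ
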