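import Pool.Agent.K6.H54.RZ.Pell

/-!
# Sparse zeros of forms modulo large divisors of `x` and `y`
-/

set_option autoImplicit false

namespace Pool.Agent.K6.H54.RZ

open Finset Pool.Agent.N449.SQ Pool.Agent.K6.H50.SMP

section

variable {n : ℕ} (hn : n.Prime) (hn2 : n ≠ 2) {x y : ℤ} (h : (x : ℝ) + y * √2 = (1 + √2) ^ n)
  {m k : ℕ} (hk : 1 ≤ k) (S : Finset ℕ) (u u' : Fin m → ℕ → ℤ)
  (hu : ∀ j, ∀ i ∈ S, |u j i| ≤ n ∧ |u' j i| ≤ n) (P : MvPolynomial (Fin m) ℤ)
  (hP : P.IsHomogeneous k) (hlen : len P ≤ (n : ℤ) ^ k) {J : Type*}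
  (L : J → MvPolynomial (Fin m) ℤ) (l : J → ℕ) (hL : ∀ j, (L j).IsHomogeneous (l j))
  {δ : ℝ} (hδ : 0 < δ) (hδ1 : δ ≤ 1) {d : ℕ} (hdδ : (1 + √2) ^ (δ * n) ≤ (d : ℝ))
  (hd : (d : ℤ) ∣ MvPolynomial.eval (fun j => val S (u j) (u' j)) P)

include hlen in
theorem base_le (E : ℕ) :
    ((len P : ℝ) * (2 * (4 * S.card * n)) ^ k) ^ E ≤
      ((8 * S.card * (n : ℝ) ^ 2) ^ k) ^ E := by
  have h0 : 0 ≤ len P := Finset.sum_nonneg fun _ _ => abs_nonneg _
  have h0' : (0 : ℝ) ≤ len P := by exact_mod_cast h0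
  have h1 : (len P : ℝ) ≤ (n : ℝ) ^ k := by exact_mod_cast hlen
  refine pow_le_pow_left₀ (by positivity) ?_ E
  calc (len P : ℝ) * (2 * (4 * S.card * n)) ^ k ≤
      (n : ℝ) ^ k * (2 * (4 * S.card * n)) ^ k := mul_le_mul_of_nonneg_right h1 (by positivity)
    _ = (8 * S.card * (n : ℝ) ^ 2) ^ k := by rw [← mul_pow]; congr 1; ring

include hn hn2 h hk hu hP hlen hL hδ hδ1 hdδ hd

theorem transferX (hdx : (d : ℤ) ∣ x)
    (hreal : ∀ z : Fin m → ℝ, MvPolynomial.eval₂ (Int.castRingHom ℝ) z P = 0 →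
      ∃ j, MvPolynomial.eval₂ (Int.castRingHom ℝ) z (L j) = 0) :
    (∃ j, x ∣ MvPolynomial.eval (fun j => val S (u j) (u' j)) (L j)) ∨
      Real.log n ≤ 4 * S.card * Real.log (15 * k / δ) := by
  have hodd : Odd n := hn.odd_of_ne_two hn2
  have hn3 : 3 ≤ n := by
    have := hn.two_le
    omega
  have hnR : (3 : ℝ) ≤ n := by exact_mod_cast hn3
  rcases S.eq_empty_or_nonempty with hS | hS
  · left
    have hv : (fun j => val S (u j) (u' j)) = fun _ => 0 := by
      funext j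
      rw [hS, val, Finset.sum_empty]
    have hz : ∀ Q : MvPolynomial (Fin m) ℤ,
        MvPolynomial.eval₂ (Int.castRingHom ℝ) (fun _ => (0 : ℝ)) Q =
        ((MvPolynomial.eval (fun _ => (0 : ℤ)) Q : ℤ) : ℝ) := by
      intro Q
      rw [MvPolynomial.eval₂_eq', MvPolynomial.eval_eq']
      push_cast
      rfl
    have hP0 : MvPolynomial.eval (fun _ => (0 : ℤ)) P = 0 := by
      have h1 := aeval_hom (R' := ℤ) (fun _ => 1) 0 P hP
      rw [zero_pow (by omega), zero_mul] at h1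
      have h2 : MvPolynomial.eval₂ (Int.castRingHom ℤ) (fun _ => ((1 : ℤ) : ℤ) * 0) P =
          MvPolynomial.eval (fun _ => (0 : ℤ)) P := by
        rw [MvPolynomial.eval₂_eq', MvPolynomial.eval_eq']
        simp
      rw [← h2]
      exact h1
    obtain ⟨j, hj⟩ := hreal (fun _ => 0) (by rw [hz, hP0, Int.cast_zero])
    rw [hz] at hj
    refine ⟨j, ?_⟩
    rw [hv, Int.cast_eq_zero.1 hj]
    exact dvd_zero _
  by_cases hcon : ∃ j, x ∣ MvPolynomial.eval (fun j => val S (u j) (u' j)) (L j)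
  · exact Or.inl hcon
  right
  have hs1 : 1 ≤ S.card := Finset.card_pos.2 hS
  have hsR : (1 : ℝ) ≤ S.card := by exact_mod_cast hs1
  refine num hδ hδ1 hn3 hs1 hk hdδ fun H hH _ hHn => ?_
  have hval : (fun j => val S (u j) (u' j)) =
      fun j => ∑ i ∈ S, ((fun j i => (⟨u j i, u' j i⟩ : R 2)) j i * w 2 i).im := by
    funext j
    exact val_eq S (u j) (u' j)
  rw [hval] at hd hcon
  have hA : ∀ j, ∑ i ∈ S, hs 2 ((fun j i => (⟨u j i, u' j i⟩ : R 2)) j i) ≤ 4 * S.card * n :=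
    fun j => hs_bound S (u j) (u' j) (hu j)
  have hdV : (d : ℤ) ∣ V 2 n := by
    rw [← (ident h).2]
    exact Dvd.dvd.mul_left hdx _
  rcases zeros (a := 2) (by norm_num) hV2 hn hn2 S (fun j i => (⟨u j i, u' j i⟩ : R 2)) P hP L l
    hL hreal hH hHn hdV hd (A := 4 * S.card * n) (by nlinarith) hA with ⟨j, hj⟩ | hb
  · exact absurd ⟨j, dvd_x hodd h hj⟩ hcon
  · refine hb.trans ?_
    rw [h2e]
    have h1 := base_le S P hlen (H ^ S.card)
    have h0 : 0 ≤ len P := Finset.sum_nonneg fun _ _ => abs_nonneg _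
    have h0' : (0 : ℝ) ≤ len P := by exact_mod_cast h0
    exact pow_le_pow_left₀ (by positivity) (mul_le_mul_of_nonneg_right h1 (by positivity)) 2

theorem transferY (hdy : (d : ℤ) ∣ y)
    (hcplx : ∀ z : Fin m → ℂ, MvPolynomial.eval₂ (Int.castRingHom ℂ) z P = 0 →
      ∃ j, MvPolynomial.eval₂ (Int.castRingHom ℂ) z (L j) = 0) :
    (∃ j, y ∣ MvPolynomial.eval (fun j => val S (u j) (u' j)) (L j)) ∨
      Real.log n ≤ 4 * S.card * Real.log (15 * k / δ) := by
  have hodd : Odd n := hn.odd_of_ne_two hn2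
  have hn3 : 3 ≤ n := by
    have := hn.two_le
    omega
  have hnR : (3 : ℝ) ≤ n := by exact_mod_cast hn3
  rcases S.eq_empty_or_nonempty with hS | hS
  · left
    have hv : (fun j => val S (u j) (u' j)) = fun _ => 0 := by
      funext j
      rw [hS, val, Finset.sum_empty]
    have hz : ∀ Q : MvPolynomial (Fin m) ℤ,
        MvPolynomial.eval₂ (Int.castRingHom ℂ) (fun _ => (0 : ℂ)) Q =
        ((MvPolynomial.eval (fun _ => (0 : ℤ)) Q : ℤ) : ℂ) := by
      intro Q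
      rw [MvPolynomial.eval₂_eq', MvPolynomial.eval_eq']
      push_cast
      rfl
    have hP0 : MvPolynomial.eval (fun _ => (0 : ℤ)) P = 0 := by
      have h1 := aeval_hom (R' := ℤ) (fun _ => 1) 0 P hP
      rw [zero_pow (by omega), zero_mul] at h1
      have h2 : MvPolynomial.eval₂ (Int.castRingHom ℤ) (fun _ => ((1 : ℤ) : ℤ) * 0) P =
          MvPolynomial.eval (fun _ => (0 : ℤ)) P := by
        rw [MvPolynomial.eval₂_eq', MvPolynomial.eval_eq']
        simp
      rw [← h2]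
      exact h1
    obtain ⟨j, hj⟩ := hcplx (fun _ => 0) (by rw [hz, hP0, Int.cast_zero])
    rw [hz] at hj
    refine ⟨j, ?_⟩
    rw [hv, Int.cast_eq_zero.1 hj]
    exact dvd_zero _
  by_cases hcon : ∃ j, y ∣ MvPolynomial.eval (fun j => val S (u j) (u' j)) (L j)
  · exact Or.inl hcon
  right
  have hs1 : 1 ≤ S.card := Finset.card_pos.2 hS
  have hsR : (1 : ℝ) ≤ S.card := by exact_mod_cast hs1
  refine num hδ hδ1 hn3 hs1 hk hdδ fun H hH hkH hHn => ?_
  have hval : (fun j => val S (u j) (u' j)) =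
      fun j => ∑ i ∈ S, ((fun j i => (⟨u j i, u' j i⟩ : R 2)) j i * w 2 i).im := by
    funext j
    exact val_eq S (u j) (u' j)
  rw [hval] at hd hcon
  have hA : ∀ j, ∑ i ∈ S, hs 2 ((fun j i => (⟨u j i, u' j i⟩ : R 2)) j i) ≤ 4 * S.card * n :=
    fun j => hs_bound S (u j) (u' j) (hu j)
  have hdU : (d : ℤ) ∣ U 2 n := by
    rw [← (ident h).1]
    exact hdy
  rcases zerosU (a := 2) (by norm_num) hV2 hn hn2 S (fun j i => (⟨u j i, u' j i⟩ : R 2)) P hP L l
    hL hcplx hH hHn hdU hd (A := 4 * S.card * n) (by nlinarith) hA with ⟨j, hj⟩ | hb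
  · exact absurd ⟨j, dvd_y hodd h hj⟩ hcon
  · refine hb.trans ?_
    rw [h2e]
    have h1 := base_le S P hlen (H ^ S.card)
    have h0 : 0 ≤ len P := Finset.sum_nonneg fun _ _ => abs_nonneg _
    have h0' : (0 : ℝ) ≤ len P := by exact_mod_cast h0
    have hε : (1 : ℝ) ≤ 1 + √2 := by
      have := Real.sqrt_nonneg 2
      linarith
    have hu1 : (1 : ℝ) ≤ ((8 * S.card * (n : ℝ) ^ 2) ^ k) ^ (H ^ S.card) := by
      refine one_le_pow₀ (one_le_pow₀ ?_)
      have : (1 : ℝ) ≤ (n : ℝ) ^ 2 := one_le_pow₀ (by linarith)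
      nlinarith
    have hHs : H ≤ H ^ S.card := Nat.le_self_pow (by omega) H
    have hexp : k * (2 * n / H) + H ^ S.card ≤ (k * (n / H) + H ^ S.card) * 2 := by
      have h2 : 2 * n / H ≤ 2 * (n / H) + 1 := by
        have h3 : 2 * n < H * (2 * (n / H) + 2) := by
          have := Nat.lt_mul_div_succ n hH
          nlinarith
        have h4 := (Nat.div_lt_iff_lt_mul hH).2 (by rw [mul_comm]; exact h3)
        omega
      have h5 : k * (2 * n / H) ≤ k * (2 * (n / H) + 1) := Nat.mul_le_mul_left k h2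
      nlinarith
    calc ((len P : ℝ) * (2 * (4 * S.card * n)) ^ k) ^ H ^ S.card *
          (1 + √2) ^ (k * (2 * n / H) + H ^ S.card) ≤
        ((8 * S.card * (n : ℝ) ^ 2) ^ k) ^ (H ^ S.card) *
          (1 + √2) ^ ((k * (n / H) + H ^ S.card) * 2) :=
          mul_le_mul h1 (pow_le_pow_right₀ hε hexp) (by positivity) (by positivity)
      _ ≤ (((8 * S.card * (n : ℝ) ^ 2) ^ k) ^ (H ^ S.card)) ^ 2 *
          (1 + √2) ^ ((k * (n / H) + H ^ S.card) * 2) := by
          refine mul_le_mul_of_nonneg_right ?_ (by positivity)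
          nlinarith
      _ = _ := by rw [pow_mul (1 + √2), ← mul_pow]

end

end Pool.Agent.K6.H54.RZ
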